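import Mathlib
import Pool.Agent.R333.SubR

/-!
# The subspace theorem for unbounded families of integral points with coordinates divisible by `S`-units
-/

set_option autoImplicit false

open Finset Filter Topology

namespace Pool.Agent.Zk43.HS

/-- `r` is a positive integer all of whose prime factors are in `S` -/
def Smooth (S : Finset ℕ) (r : ℕ) : Prop := r ≠ 0 ∧ r.primeFactors ⊆ S

lemma Smooth.mul {S : Finset ℕ} {a b : ℕ} (ha : Smooth S a) (hb : Smooth S b) : Smooth S (a * b) :=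
  ⟨mul_ne_zero ha.1 hb.1, by
    rw [Nat.primeFactors_mul ha.1 hb.1]
    exact union_subset ha.2 hb.2⟩

lemma Smooth.one (S : Finset ℕ) : Smooth S 1 := ⟨one_ne_zero, by simp⟩

lemma Smooth.pow {S : Finset ℕ} {a : ℕ} (ha : Smooth S a) (i : ℕ) : Smooth S (a ^ i) := by
  induction i with
  | zero => simpa using Smooth.one S
  | succ i ih =>
    rw [pow_succ]
    exact ih.mul ha

lemma Smooth.of_dvd {S : Finset ℕ} {a b : ℕ} (hb : Smooth S b) (h : a ∣ b) : Smooth S a :=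
  ⟨fun h0 => hb.1 (by rw [h0] at h; exact Nat.eq_zero_of_zero_dvd h),
    (Nat.primeFactors_mono h hb.1).trans hb.2⟩

noncomputable def bs (S : Finset ℕ) : ℕ := 2 * ∏ p ∈ S.filter Nat.Prime, p

lemma two_le_bs (S : Finset ℕ) : 2 ≤ bs S := by
  unfold bs
  have : 0 < ∏ p ∈ S.filter Nat.Prime, p :=
    Finset.prod_pos fun p hp => (Finset.mem_filter.1 hp).2.pos
  omega

lemma dvd_bs {S : Finset ℕ} {D k : ℕ} (hD : Smooth S D) (hk : D ≤ 2 ^ k) : D ∣ bs S ^ k := by
  have hb : bs S ≠ 0 := by have := two_le_bs S; omega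
  rw [← Nat.factorization_le_iff_dvd hD.1 (pow_ne_zero k hb)]
  intro p
  by_cases hp : p ∈ D.primeFactors
  · have hpp := Nat.prime_of_mem_primeFactors hp
    have hpS := hD.2 hp
    have h1 : p ∣ bs S :=
      Dvd.dvd.mul_left (Finset.dvd_prod_of_mem (fun p => p) (mem_filter.2 ⟨hpS, hpp⟩)) 2
    have h2 : 1 ≤ (bs S).factorization p := (hpp.dvd_iff_one_le_factorization hb).1 h1
    have h3 : D.factorization p ≤ k := by
      have h4 : 2 ^ D.factorization p ≤ 2 ^ k := by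
        calc 2 ^ D.factorization p ≤ p ^ D.factorization p := Nat.pow_le_pow_left hpp.two_le _
          _ ≤ D := Nat.le_of_dvd (Nat.pos_of_ne_zero hD.1) (Nat.ordProj_dvd D p)
          _ ≤ 2 ^ k := hk
      exact (Nat.pow_le_pow_iff_right (by norm_num)).1 h4
    rw [Nat.factorization_pow, Finsupp.smul_apply, smul_eq_mul]
    calc D.factorization p ≤ k := h3
      _ = k * 1 := (mul_one k).symm
      _ ≤ k * (bs S).factorization p := Nat.mul_le_mul_left k h2
  · have h0 : D.factorization p = 0 := by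
      rw [← Nat.support_factorization] at hp
      exact Finsupp.notMem_support_iff.1 hp
    rw [h0]
    exact Nat.zero_le _

/-- pigeonhole: an unbounded set with a finite coloring has an unbounded color class -/
lemma exists_color {α β : Type} (𝒜 : Set α) (T : α → ℝ) (hT : ∀ t : ℝ, ∃ a ∈ 𝒜, t ≤ T a)
    (c : α → β) (J : Finset β) (hc : ∀ a ∈ 𝒜, c a ∈ J) :
    ∃ j ∈ J, ∀ t : ℝ, ∃ a ∈ 𝒜, c a = j ∧ t ≤ T a := by
  classical
  by_contra hcon
  push Not at hcon
  choose! t ht using hcon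
  obtain ⟨a, ha, hta⟩ := hT (∑ j ∈ J, |t j|)
  have h1 := ht (c a) (hc a ha) a ha rfl
  have h2 : t (c a) ≤ ∑ j ∈ J, |t j| :=
    (le_abs_self _).trans (Finset.single_le_sum (f := fun j => |t j|) (fun j _ => abs_nonneg _) (hc a ha))
  linarith

theorem seqSub {n : ℕ} (hn : 1 ≤ n) (S : Finset ℕ) (M : Matrix (Fin n) (Fin n) ℝ)
    (halg : ∀ i j, IsAlgebraic ℚ (M i j)) (htri : ∀ i j, i < j → M i j = 0) (hdiag : ∀ i, M i i ≠ 0)
    {α : Type} (𝒜 : Set α) (T : α → ℝ) (X : α → Fin n → ℤ) (D : α → Fin n → ℕ) (e : α → Fin n → ℝ)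
    (K γ : ℝ) (hK : 0 < K) (hγ : 0 < γ)
    (hT : ∀ t : ℝ, ∃ a ∈ 𝒜, t ≤ T a)
    (h0 : ∀ a ∈ 𝒜, 1 ≤ T a) (hX : ∀ a ∈ 𝒜, X a ≠ 0)
    (hD : ∀ a ∈ 𝒜, ∀ l, Smooth S (D a l)) (hDK : ∀ a ∈ 𝒜, ∀ l, (D a l : ℝ) ≤ Real.exp (K * T a))
    (hdiv : ∀ a ∈ 𝒜, ∀ l, (D a l : ℤ) ∣ X a l)
    (he : ∀ a ∈ 𝒜, ∀ l, |e a l| ≤ K * T a)
    (hsm : ∀ a ∈ 𝒜, ∀ l, |∑ j, M l j * X a j| ≤ Real.exp (e a l))
    (hsum : ∀ a ∈ 𝒜, ∑ l, e a l + γ * T a ≤ ∑ l, Real.log (D a l)) :
    ∃ y : Fin n → ℤ, y ≠ 0 ∧ ∀ t : ℝ, ∃ a ∈ 𝒜, t ≤ T a ∧ ∑ l, y l * X a l = 0 := by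
  classical
  obtain ⟨η, hη⟩ : ∃ η : ℝ, η = γ / (4 * n) := ⟨_, rfl⟩
  have hnR : (0 : ℝ) < n := by exact_mod_cast hn
  have hη0 : 0 < η := by rw [hη]; positivity
  set mm : α → ℕ := fun a => ⌈T a⌉₊ with hmm
  have hm1 : ∀ a ∈ 𝒜, T a ≤ mm a := fun a _ => Nat.le_ceil _
  have hm2 : ∀ a ∈ 𝒜, (mm a : ℝ) ≤ 2 * T a := by
    intro a ha
    have h1 := (Nat.ceil_lt_add_one (by linarith [h0 a ha] : 0 ≤ T a)).le
    have := h0 a ha
    calc (mm a : ℝ) ≤ T a + 1 := h1
      _ ≤ 2 * T a := by linarith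
  have hm3 : ∀ a ∈ 𝒜, (0 : ℝ) < mm a := fun a ha =>
    lt_of_lt_of_le (by linarith [h0 a ha]) (hm1 a ha)
  set cell : α → Fin n → ℤ := fun a l => ⌈e a l / (η * mm a)⌉ with hcell
  obtain ⟨N, hN⟩ : ∃ N : ℤ, N = ⌈K / η⌉ + 1 := ⟨_, rfl⟩
  have hcb : ∀ a ∈ 𝒜, cell a ∈ Fintype.piFinset (fun _ : Fin n => Finset.Icc (-N) N) := by
    intro a ha
    rw [Fintype.mem_piFinset]
    intro l
    have hpos := hm3 a ha
    have h1 : |e a l / (η * mm a)| ≤ K / η := by
      rw [abs_div, abs_of_pos (mul_pos hη0 hpos), div_le_div_iff₀ (mul_pos hη0 hpos) hη0]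
      have h2 := he a ha l
      have h3 := hm1 a ha
      calc |e a l| * η ≤ (K * T a) * η := by gcongr
        _ ≤ (K * mm a) * η := by gcongr
        _ = K * (η * mm a) := by ring
    rw [Finset.mem_Icc]
    have h4 := abs_le.1 h1
    have h5 : K / η ≤ ⌈K / η⌉ := Int.le_ceil _
    constructor
    · have h6 : (-(⌈K / η⌉ : ℝ)) ≤ ⌈e a l / (η * mm a)⌉ := by
        have := Int.le_ceil (e a l / (η * mm a))
        linarith [h4.1]
      have h7 : -⌈K / η⌉ ≤ ⌈e a l / (η * mm a)⌉ := by exact_mod_cast h6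
      show -N ≤ ⌈e a l / (η * mm a)⌉
      omega
    · have h6 : ⌈e a l / (η * mm a)⌉ ≤ ⌈K / η⌉ := Int.ceil_le_ceil h4.2
      show ⌈e a l / (η * mm a)⌉ ≤ N
      omega
  obtain ⟨j, -, hj⟩ := exists_color 𝒜 T hT cell _ hcb
  -- the sequence
  set P : ℕ → Prop := fun m => ∃ a ∈ 𝒜, cell a = j ∧ mm a = m with hP
  have hPf : ∃ᶠ m in atTop, P m := by
    rw [Filter.frequently_atTop]
    intro m0
    obtain ⟨a, ha, hca, hta⟩ := hj m0
    refine ⟨mm a, ?_, a, ha, hca, rfl⟩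
    have h1 := hm1 a ha
    have h2 : (m0 : ℝ) ≤ mm a := hta.trans h1
    exact_mod_cast h2
  have hne : Nonempty α := by
    obtain ⟨a, -, -⟩ := hT 0
    exact ⟨a⟩
  set A : ℕ → α := fun m => if h : P m then h.choose else hne.some with hA
  have hAs : ∀ m, P m → A m ∈ 𝒜 ∧ cell (A m) = j ∧ mm (A m) = m := by
    intro m hm
    have : A m = hm.choose := by simp only [hA, dif_pos hm]
    rw [this]
    obtain ⟨h1, h2⟩ := hm.choose_spec
    exact ⟨h1, h2⟩
  obtain ⟨κ, hκ⟩ : ∃ κ : ℕ, κ = ⌈K / Real.log 2⌉₊ := ⟨_, rfl⟩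
  have hl2 : 0 < Real.log 2 := Real.log_pos (by norm_num)
  have hb2 := two_le_bs S
  have hbR : (1 : ℝ) < bs S := by exact_mod_cast hb2
  have hLb : 0 < Real.log (bs S) := Real.log_pos hbR
  obtain ⟨y, hy0, hy⟩ := Pool.Agent.R333.SubR.sub_real hn (bs S) hb2 M halg htri hdiag P hPf
    (fun m => X (A m)) (fun m hm => hX _ (hAs m hm).1) (fun m => D (A m)) κ
    (fun m l hm => by
      obtain ⟨h1, h2, h3⟩ := hAs m hm
      refine dvd_bs (hD _ h1 l) ?_
      have h4 := hDK _ h1 l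
      have h5 : K * T (A m) ≤ (κ * m : ℕ) * Real.log 2 := by
        have h6 : K / Real.log 2 ≤ κ := by rw [hκ]; exact Nat.le_ceil _
        have h7 := hm1 _ h1
        rw [h3] at h7
        have h8 : K ≤ κ * Real.log 2 := by
          rwa [div_le_iff₀ hl2] at h6
        have h9 : 0 ≤ T (A m) := by linarith [h0 _ h1]
        calc K * T (A m) ≤ (κ * Real.log 2) * m := by
              apply mul_le_mul h8 h7 h9 (by positivity)
          _ = _ := by push_cast; ring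
      have h6 : (D (A m) l : ℝ) ≤ 2 ^ (κ * m) := by
        refine h4.trans ((Real.exp_le_exp.2 h5).trans (le_of_eq ?_))
        rw [mul_comm, Real.exp_mul, Real.exp_log (by norm_num), Real.rpow_natCast]
      exact_mod_cast h6)
    (fun m l hm => hdiv _ (hAs m hm).1 l)
    (fun l => (j l : ℝ) * η / Real.log (bs S)) 1 one_pos
    (fun m l hm => by
      obtain ⟨h1, h2, h3⟩ := hAs m hm
      refine (hsm _ h1 l).trans ?_
      rw [one_mul, Real.rpow_def_of_pos (by linarith)]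
      refine Real.exp_le_exp.2 ?_
      have h4 : e (A m) l / (η * mm (A m)) ≤ j l := by
        have h5 : cell (A m) l = j l := congrFun h2 l
        rw [← h5]
        exact Int.le_ceil _
      have hpos := hm3 _ h1
      rw [div_le_iff₀ (mul_pos hη0 hpos), h3] at h4
      refine h4.trans (le_of_eq ?_)
      field_simp)
    (γ / (4 * Real.log (bs S))) (by positivity)
    (fun m hm => by
      obtain ⟨h1, h2, h3⟩ := hAs m hm
      refine le_trans ?_ (hsum _ h1)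
      have hpos := hm3 _ h1
      have h4 : ∀ l, (j l : ℝ) * (η * m) ≤ e (A m) l + η * m := by
        intro l
        have h5 : cell (A m) l = j l := congrFun h2 l
        have h6 : (j l : ℝ) < e (A m) l / (η * mm (A m)) + 1 := by
          rw [← h5]
          exact Int.ceil_lt_add_one _
        rw [h3] at h6 hpos
        have h7 : 0 < η * m := mul_pos hη0 hpos
        have h8 := mul_lt_mul_of_pos_right h6 h7
        rw [add_mul, one_mul, div_mul_cancel₀ _ h7.ne'] at h8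
        exact h8.le
      have h5 : (∑ l, (j l : ℝ) * η / Real.log (bs S) + γ / (4 * Real.log (bs S))) * m *
          Real.log (bs S) = ∑ l, (j l : ℝ) * (η * m) + γ / 4 * m := by
        have h6 : ∑ l, (j l : ℝ) * η / Real.log (bs S) = (∑ l, (j l : ℝ) * (η * m)) / (m * Real.log (bs S)) := by
          rw [Finset.sum_div]
          refine Finset.sum_congr rfl fun l _ => ?_
          rw [h3] at hpos
          field_simp
        rw [h6]
        rw [h3] at hpos
        generalize ∑ l, (j l : ℝ) * (η * m) = s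
        field_simp
      rw [h5]
      have h6 : ∑ l, (j l : ℝ) * (η * m) ≤ ∑ l, e (A m) l + n * (η * m) := by
        calc ∑ l, (j l : ℝ) * (η * m) ≤ ∑ l, (e (A m) l + η * m) := Finset.sum_le_sum fun l _ => h4 l
          _ = _ := by rw [Finset.sum_add_distrib]; simp
      have h7 : (n : ℝ) * (η * m) = γ / 4 * m := by
        rw [hη]
        field_simp
      have h8 := hm2 _ h1
      rw [h3] at h8
      have h9 : γ / 4 * m + γ / 4 * m ≤ γ * T (A m) := by
        calc γ / 4 * m + γ / 4 * m = γ / 2 * m := by ring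
          _ ≤ γ / 2 * (2 * T (A m)) := by gcongr
          _ = _ := by ring
      linarith)
  refine ⟨y, hy0, fun t => ?_⟩
  obtain ⟨m, hm, hPm, hrel⟩ := (Filter.frequently_atTop.1 hy) (⌈2 * |t|⌉₊ + 1)
  obtain ⟨h1, h2, h3⟩ := hAs m hPm
  refine ⟨A m, h1, ?_, hrel⟩
  have h4 := hm2 _ h1
  rw [h3] at h4
  have h5 : (2 * |t|) ≤ ⌈2 * |t|⌉₊ := Nat.le_ceil _
  have h6 : ((⌈2 * |t|⌉₊ : ℕ) : ℝ) ≤ m := by
    have : ⌈2 * |t|⌉₊ ≤ m := by omega
    exact_mod_cast this
  have h7 := le_abs_self t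
  linarith

end Pool.Agent.Zk43.HS
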