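import Mathlib
import Pool.Agent.Zk43.HS.SeqSub

/-!
# Integral points of Mordell curves with abscissa near an `S`-unit: real estimates
-/

set_option autoImplicit false

open Finset Filter Topology

namespace Pool.Agent.Zk43.HS

/-- the data -/
structure Pt where
  x : ℤ
  y : ℤ
  r : ℤ
  w₁ : ℕ
  w₂ : ℕ
  n : ℕ

noncomputable def Pt.R (h : ℤ) (k₂ : ℕ) (p : Pt) : ℝ := (p.n : ℝ) * p.r / (h * k₂ * (p.w₂ : ℝ) ^ 2)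

/-- the exponent of the error terms -/
noncomputable def et (δ : ℝ) : ℝ := min δ 1 / 20

lemma et_pos {δ : ℝ} (hδ : 0 < δ) : 0 < et δ := by
  unfold et
  have : 0 < min δ 1 := lt_min hδ one_pos
  positivity

lemma et_le (δ : ℝ) : et δ ≤ 1 / 20 ∧ et δ ≤ δ / 20 := by
  unfold et
  exact ⟨by linarith [min_le_right δ 1], by linarith [min_le_left δ 1]⟩

/-- the conditions -/
structure Ok (S : Finset ℕ) (a h : ℤ) (k₁ k₂ : ℕ) (B θ δ : ℝ) (p : Pt) : Prop where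
  s1 : Smooth S p.w₁
  s2 : Smooth S p.w₂
  sn : Smooth S p.n
  b1 : (p.w₁ : ℝ) ≤ (p.x : ℝ) ^ B
  b2 : (p.w₂ : ℝ) ≤ (p.x : ℝ) ^ B
  eq : h * k₂ * p.w₂ ^ 2 * p.x = a * k₁ * p.w₁ ^ 2 + p.n * p.r
  xpos : 4 ≤ p.x
  ypos : 0 ≤ p.y
  ne : p.y ^ 2 ≠ p.x ^ 3
  sm : |(p.y : ℝ) ^ 2 - (p.x : ℝ) ^ 3| ≤ (p.x : ℝ) ^ (3 / 2 - 3 * θ - δ)
  c1 : (p.n : ℝ) * (p.r : ℝ) ^ 2 ≤ k₂ * (p.w₂ : ℝ) ^ 2 * (p.x : ℝ) ^ (1 / 2 - δ)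
  c2 : |(p.r : ℝ)| ≤ (p.x : ℝ) ^ θ
  sm2 : p.r ≠ 0 → (p.x : ℝ) ^ (-(2 * et δ)) < |p.R h k₂| →
    |(p.y : ℝ) ^ 2 - (p.x : ℝ) ^ 3| ≤ (p.x : ℝ) ^ (1 - δ) * p.R h k₂ ^ 2
  c3 : 1 / 4 ≤ θ ∨ |p.R h k₂| ≤ (p.x : ℝ) ^ (1 / 4 - δ)

/-- fixed parameters -/
structure Fix (a h : ℤ) (k₁ k₂ : ℕ) (B θ δ : ℝ) : Prop where
  a0 : a ≠ 0
  h0 : h ≠ 0
  k1 : k₁ ≠ 0
  k2 : k₂ ≠ 0
  B0 : 0 ≤ B
  θ0 : 0 ≤ θ
  δ0 : 0 < δ

variable {S : Finset ℕ} {a h : ℤ} {k₁ k₂ : ℕ} {B θ δ : ℝ} {p : Pt}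

/-- the quotient of the leading coefficients -/
noncomputable def AA (a h : ℤ) (k₁ k₂ : ℕ) : ℝ := (a : ℝ) * k₁ / (h * k₂)

noncomputable def Pt.W (p : Pt) : ℝ := (p.w₁ : ℝ) / p.w₂

noncomputable def Pt.V (a h : ℤ) (k₁ k₂ : ℕ) (p : Pt) : ℝ := √(AA a h k₁ k₂) * p.W

noncomputable def Pt.T (p : Pt) : ℝ := Real.log p.x

/-- the linear form -/
noncomputable def Pt.L (a h : ℤ) (k₁ k₂ : ℕ) (p : Pt) : ℝ :=
  p.y - p.V a h k₁ k₂ ^ 3 - 3 / 2 * p.V a h k₁ k₂ * p.R h k₂ - 3 / 8 * p.R h k₂ ^ 2 / p.V a h k₁ k₂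

section
variable (f : Fix a h k₁ k₂ B θ δ) (o : Ok S a h k₁ k₂ B θ δ p)
include f o

lemma Ok.xR : (4 : ℝ) ≤ p.x := by exact_mod_cast o.xpos

lemma Ok.x0 : (0 : ℝ) < p.x := by linarith [o.xR f]

lemma Ok.w1 : (0 : ℝ) < p.w₁ := by exact_mod_cast Nat.pos_of_ne_zero o.s1.1

lemma Ok.w2 : (0 : ℝ) < p.w₂ := by exact_mod_cast Nat.pos_of_ne_zero o.s2.1

lemma Ok.n0 : (1 : ℝ) ≤ p.n := by exact_mod_cast Nat.pos_of_ne_zero o.sn.1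

lemma Ok.T1 : 1 ≤ p.T := by
  unfold Pt.T
  rw [Real.le_log_iff_exp_le (o.x0 f)]
  have := Real.exp_one_lt_d9
  linarith [o.xR f]

lemma Ok.expT : Real.exp p.T = p.x := Real.exp_log (o.x0 f)

lemma Ok.rpow (c : ℝ) : (p.x : ℝ) ^ c = Real.exp (c * p.T) := by
  rw [Real.rpow_def_of_pos (o.x0 f), mul_comm]
  rfl

lemma Ok.eqR : (h : ℝ) * k₂ * (p.w₂ : ℝ) ^ 2 * p.x = a * k₁ * (p.w₁ : ℝ) ^ 2 + p.n * p.r := by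
  exact_mod_cast o.eq

lemma Ok.xeq : (p.x : ℝ) = AA a h k₁ k₂ * p.W ^ 2 + p.R h k₂ := by
  have h1 : (h : ℝ) ≠ 0 := by exact_mod_cast f.h0
  have h2 : (k₂ : ℝ) ≠ 0 := by exact_mod_cast f.k2
  have h3 := (o.w2 f).ne'
  have h4 := o.eqR f
  unfold AA Pt.W Pt.R
  field_simp
  linarith

lemma Ok.Rr : |p.R h k₂| * |(p.r : ℝ)| ≤ (p.x : ℝ) ^ (1 / 2 - δ) := by
  have h1 : (1 : ℝ) ≤ |(h : ℝ)| := by
    have : 1 ≤ |h| := Int.one_le_abs f.h0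
    exact_mod_cast this
  have h2 : (0 : ℝ) < k₂ := by exact_mod_cast Nat.pos_of_ne_zero f.k2
  have h3 := o.w2 f
  have h4 := o.c1
  have h5 := o.n0 f
  have h6 : |p.R h k₂| * |(p.r : ℝ)| = (p.n * (p.r : ℝ) ^ 2) / (|(h : ℝ)| * (k₂ * (p.w₂ : ℝ) ^ 2)) := by
    unfold Pt.R
    rw [abs_div, abs_mul, abs_mul, abs_mul, abs_of_pos h2, abs_of_pos (pow_pos h3 2),
      abs_of_nonneg (by linarith : (0 : ℝ) ≤ p.n), ← sq_abs (p.r : ℝ)]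
    ring
  rw [h6, div_le_iff₀ (by positivity)]
  have h7 : 0 ≤ (p.x : ℝ) ^ (1 / 2 - δ) := Real.rpow_nonneg (o.x0 f).le _
  have h8 : 0 < (k₂ : ℝ) * (p.w₂ : ℝ) ^ 2 := by positivity
  calc (p.n : ℝ) * (p.r : ℝ) ^ 2 ≤ k₂ * (p.w₂ : ℝ) ^ 2 * (p.x : ℝ) ^ (1 / 2 - δ) := h4
    _ = 1 * ((p.x : ℝ) ^ (1 / 2 - δ) * (k₂ * (p.w₂ : ℝ) ^ 2)) := by ring
    _ ≤ |(h : ℝ)| * ((p.x : ℝ) ^ (1 / 2 - δ) * (k₂ * (p.w₂ : ℝ) ^ 2)) := by gcongr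
    _ = _ := by ring

lemma Ok.Rle : |p.R h k₂| ≤ (p.x : ℝ) ^ (1 / 2 - δ) := by
  by_cases h0 : p.r = 0
  · have : p.R h k₂ = 0 := by unfold Pt.R; rw [h0]; simp
    rw [this, abs_zero]
    exact Real.rpow_nonneg (o.x0 f).le _
  · have h1 : (1 : ℝ) ≤ |(p.r : ℝ)| := by
      have : 1 ≤ |p.r| := Int.one_le_abs h0
      exact_mod_cast this
    calc |p.R h k₂| = |p.R h k₂| * 1 := (mul_one _).symm
      _ ≤ |p.R h k₂| * |(p.r : ℝ)| := by gcongr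
      _ ≤ _ := o.Rr f

lemma Ok.Rhalf : |p.R h k₂| ≤ (p.x : ℝ) / 2 := by
  refine (o.Rle f).trans ?_
  have hx := o.xR f
  have h1 : (p.x : ℝ) ^ (1 / 2 - δ) ≤ (p.x : ℝ) ^ (1 / 2 : ℝ) :=
    Real.rpow_le_rpow_of_exponent_le (by linarith) (by linarith [f.δ0])
  refine h1.trans ?_
  rw [← Real.sqrt_eq_rpow]
  rw [Real.sqrt_le_left (by linarith)]
  nlinarith

lemma Ok.Apos : 0 < AA a h k₁ k₂ := by
  have h1 := o.xeq f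
  have h2 := abs_le.1 (o.Rhalf f)
  have h3 : 0 < p.W ^ 2 := by
    unfold Pt.W
    have := o.w1 f
    have := o.w2 f
    positivity
  have h4 := o.xR f
  by_contra hcon
  push Not at hcon
  have h5 : AA a h k₁ k₂ * p.W ^ 2 ≤ 0 := mul_nonpos_of_nonpos_of_nonneg hcon h3.le
  linarith [h2.2]

lemma Ok.Wpos : 0 < p.W := div_pos (o.w1 f) (o.w2 f)

lemma Ok.Vpos : 0 < p.V a h k₁ k₂ := mul_pos (Real.sqrt_pos.2 (o.Apos f)) (o.Wpos f)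

lemma Ok.Vsq : p.V a h k₁ k₂ ^ 2 = p.x - p.R h k₂ := by
  unfold Pt.V
  rw [mul_pow, Real.sq_sqrt (o.Apos f).le]
  linarith [o.xeq f]

lemma Ok.V1 : (p.x : ℝ) / 2 ≤ p.V a h k₁ k₂ ^ 2 := by
  rw [o.Vsq f]
  have h2 := abs_le.1 (o.Rhalf f)
  linarith [h2.2]

lemma Ok.V2 : p.V a h k₁ k₂ ^ 2 ≤ 2 * (p.x : ℝ) := by
  rw [o.Vsq f]
  have h2 := abs_le.1 (o.Rhalf f)
  linarith [h2.1, o.x0 f]

end

/-- the expansion of `(V² + R) ^ (3 / 2)` -/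
lemma expand {z V R : ℝ} (hz : 0 < z) (hV : 0 < V) (h : z ^ 2 = V ^ 2 + R) :
    |z ^ 3 - V ^ 3 - 3 / 2 * V * R - 3 / 8 * R ^ 2 / V| ≤ |R| ^ 3 / V ^ 3 := by
  have hR : R = (z - V) * (z + V) := by nlinarith
  have hs : 0 < z + V := by linarith
  have h1 : z ^ 3 - V ^ 3 - 3 / 2 * V * R - 3 / 8 * R ^ 2 / V =
      -((z - V) ^ 3 * (3 * z + V) / (8 * V)) := by
    rw [hR]
    field_simp
    ring
  rw [h1, abs_neg, abs_div, abs_mul, abs_pow, abs_of_pos (by positivity : 0 < 8 * V),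
    abs_of_pos (by positivity : 0 < 3 * z + V), hR, abs_mul, abs_of_pos hs,
    div_le_div_iff₀ (by positivity) (by positivity)]
  have h2 : (3 * z + V) * V ^ 3 ≤ (z + V) ^ 3 * (8 * V) := by
    have : (3 * z + V) * V ^ 2 ≤ (z + V) ^ 3 * 8 := by nlinarith [mul_pos hz hV, pow_pos hz 3, pow_pos hV 3, mul_pos (pow_pos hz 2) hV, mul_pos hz (pow_pos hV 2)]
    calc (3 * z + V) * V ^ 3 = ((3 * z + V) * V ^ 2) * V := by ring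
      _ ≤ ((z + V) ^ 3 * 8) * V := by gcongr
      _ = _ := by ring
  calc |z - V| ^ 3 * (3 * z + V) * V ^ 3 = |z - V| ^ 3 * ((3 * z + V) * V ^ 3) := by ring
    _ ≤ |z - V| ^ 3 * ((z + V) ^ 3 * (8 * V)) := by gcongr
    _ = _ := by ring

section
variable (f : Fix a h k₁ k₂ B θ δ) (o : Ok S a h k₁ k₂ B θ δ p)
include f o

lemma Ok.Lle0 : |p.L a h k₁ k₂| ≤
    |(p.y : ℝ) ^ 2 - (p.x : ℝ) ^ 3| * (p.x : ℝ) ^ (-(3 / 2) : ℝ) + |p.R h k₂| ^ 3 / p.V a h k₁ k₂ ^ 3 := by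
  have hx := o.x0 f
  have hz : 0 < √(p.x : ℝ) := Real.sqrt_pos.2 hx
  have hzz : √(p.x : ℝ) ^ 2 = p.x := Real.sq_sqrt hx.le
  have h1 := expand hz (o.Vpos f) (by rw [hzz, o.Vsq f]; ring : √(p.x : ℝ) ^ 2 = p.V a h k₁ k₂ ^ 2 + p.R h k₂)
  have h2 : |(p.y : ℝ) - √(p.x : ℝ) ^ 3| ≤ |(p.y : ℝ) ^ 2 - (p.x : ℝ) ^ 3| * (p.x : ℝ) ^ (-(3 / 2) : ℝ) := by
    have h3 : (0 : ℝ) ≤ p.y := by exact_mod_cast o.ypos
    have h4 : ((p.y : ℝ) - √(p.x : ℝ) ^ 3) * (p.y + √(p.x : ℝ) ^ 3) = (p.y : ℝ) ^ 2 - (p.x : ℝ) ^ 3 := by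
      have : (√(p.x : ℝ) ^ 3) ^ 2 = (p.x : ℝ) ^ 3 := by
        rw [← pow_mul, mul_comm, pow_mul, hzz]
      calc _ = (p.y : ℝ) ^ 2 - (√(p.x : ℝ) ^ 3) ^ 2 := by ring
        _ = _ := by rw [this]
    have h5 : (0 : ℝ) < √(p.x : ℝ) ^ 3 := by positivity
    have h6 : |(p.y : ℝ) - √(p.x : ℝ) ^ 3| * √(p.x : ℝ) ^ 3 ≤ |(p.y : ℝ) ^ 2 - (p.x : ℝ) ^ 3| := by
      calc |(p.y : ℝ) - √(p.x : ℝ) ^ 3| * √(p.x : ℝ) ^ 3 ≤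
          |(p.y : ℝ) - √(p.x : ℝ) ^ 3| * |p.y + √(p.x : ℝ) ^ 3| := by
            refine mul_le_mul_of_nonneg_left ?_ (abs_nonneg _)
            rw [abs_of_pos (by linarith)]
            linarith
        _ = |(p.y : ℝ) ^ 2 - (p.x : ℝ) ^ 3| := by rw [← abs_mul, h4]
    have h7 : √(p.x : ℝ) ^ 3 = (p.x : ℝ) ^ (3 / 2 : ℝ) := by
      rw [Real.sqrt_eq_rpow, ← Real.rpow_natCast, ← Real.rpow_mul hx.le]
      norm_num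
    refine ((le_div_iff₀ h5).2 h6).trans (le_of_eq ?_)
    rw [h7, Real.rpow_neg hx.le, div_eq_mul_inv]
  unfold Pt.L
  calc |(p.y : ℝ) - p.V a h k₁ k₂ ^ 3 - 3 / 2 * p.V a h k₁ k₂ * p.R h k₂ -
      3 / 8 * p.R h k₂ ^ 2 / p.V a h k₁ k₂| =
      |((p.y : ℝ) - √(p.x : ℝ) ^ 3) + (√(p.x : ℝ) ^ 3 - p.V a h k₁ k₂ ^ 3 -
        3 / 2 * p.V a h k₁ k₂ * p.R h k₂ - 3 / 8 * p.R h k₂ ^ 2 / p.V a h k₁ k₂)| := by
        congr 1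
        ring
    _ ≤ _ := (abs_add_le _ _).trans (add_le_add h2 h1)

lemma Ok.Lle : |p.L a h k₁ k₂| ≤ (p.x : ℝ) ^ (-(3 * θ) - δ) + |p.R h k₂| ^ 3 / p.V a h k₁ k₂ ^ 3 := by
  have hx := o.x0 f
  refine (o.Lle0 f).trans (add_le_add ?_ le_rfl)
  calc |(p.y : ℝ) ^ 2 - (p.x : ℝ) ^ 3| * (p.x : ℝ) ^ (-(3 / 2) : ℝ) ≤
      (p.x : ℝ) ^ (3 / 2 - 3 * θ - δ) * (p.x : ℝ) ^ (-(3 / 2) : ℝ) := by
        gcongr
        exact o.sm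
    _ = (p.x : ℝ) ^ (-(3 * θ) - δ) := by
        rw [← Real.rpow_add hx]
        congr 1
        ring

lemma Ok.Lle2 (hr : p.r ≠ 0) (hR : Real.exp (-(2 * et δ * p.T)) < |p.R h k₂|) :
    |p.L a h k₁ k₂| ≤ Real.exp (-((1 / 2 + δ) * p.T)) * |p.R h k₂| ^ 2 +
      |p.R h k₂| ^ 3 / p.V a h k₁ k₂ ^ 3 := by
  have hx := o.x0 f
  refine (o.Lle0 f).trans (add_le_add ?_ le_rfl)
  have h1 := o.sm2 hr (by
    rw [o.rpow f]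
    convert hR using 2
    ring)
  calc |(p.y : ℝ) ^ 2 - (p.x : ℝ) ^ 3| * (p.x : ℝ) ^ (-(3 / 2) : ℝ) ≤
      ((p.x : ℝ) ^ (1 - δ) * p.R h k₂ ^ 2) * (p.x : ℝ) ^ (-(3 / 2) : ℝ) := by
        gcongr
    _ = ((p.x : ℝ) ^ (1 - δ) * (p.x : ℝ) ^ (-(3 / 2) : ℝ)) * |p.R h k₂| ^ 2 := by
        rw [sq_abs]
        ring
    _ = _ := by
        rw [← Real.rpow_add hx, o.rpow f]
        congr 2
        ring

/-- the bounds for the logarithms -/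
lemma Ok.nr : (p.n : ℝ) * |(p.r : ℝ)| ≤
    Real.exp ((Real.log (|(h : ℝ)| * k₂ + |(a : ℝ)| * k₁) + 2 * B + 1) * p.T) := by
  have h1 : (1 : ℝ) ≤ |(h : ℝ)| := by
    have : 1 ≤ |h| := Int.one_le_abs f.h0
    exact_mod_cast this
  have h1' : (1 : ℝ) ≤ |(a : ℝ)| := by
    have : 1 ≤ |a| := Int.one_le_abs f.a0
    exact_mod_cast this
  have h2 : (1 : ℝ) ≤ k₂ := by exact_mod_cast Nat.pos_of_ne_zero f.k2
  have h2' : (1 : ℝ) ≤ k₁ := by exact_mod_cast Nat.pos_of_ne_zero f.k1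
  have h3 : (p.n : ℝ) * |(p.r : ℝ)| = |(h : ℝ) * k₂ * (p.w₂ : ℝ) ^ 2 * p.x - a * k₁ * (p.w₁ : ℝ) ^ 2| := by
    have h4 : (h : ℝ) * k₂ * (p.w₂ : ℝ) ^ 2 * p.x - a * k₁ * (p.w₁ : ℝ) ^ 2 = p.n * p.r := by
      linarith [o.eqR f]
    rw [h4, abs_mul, abs_of_nonneg (by linarith [o.n0 f] : (0 : ℝ) ≤ p.n)]
  have hx := o.x0 f
  have hx4 := o.xR f
  have h5 : (p.w₁ : ℝ) ^ 2 ≤ (p.x : ℝ) ^ (2 * B + 1) := by
    calc (p.w₁ : ℝ) ^ 2 ≤ ((p.x : ℝ) ^ B) ^ 2 := pow_le_pow_left₀ (o.w1 f).le o.b1 2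
      _ = (p.x : ℝ) ^ (2 * B) := by rw [← Real.rpow_natCast, ← Real.rpow_mul hx.le]; congr 1; push_cast; ring
      _ ≤ _ := Real.rpow_le_rpow_of_exponent_le (by linarith) (by linarith)
  have h6 : (p.w₂ : ℝ) ^ 2 * p.x ≤ (p.x : ℝ) ^ (2 * B + 1) := by
    rw [Real.rpow_add hx, Real.rpow_one]
    refine mul_le_mul_of_nonneg_right ?_ hx.le
    calc (p.w₂ : ℝ) ^ 2 ≤ ((p.x : ℝ) ^ B) ^ 2 := pow_le_pow_left₀ (o.w2 f).le o.b2 2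
      _ = (p.x : ℝ) ^ (2 * B) := by rw [← Real.rpow_natCast, ← Real.rpow_mul hx.le]; congr 1; push_cast; ring
  have h7 : (1 : ℝ) ≤ |(h : ℝ)| * k₂ + |(a : ℝ)| * k₁ := by nlinarith
  have h8 : 0 ≤ Real.log (|(h : ℝ)| * k₂ + |(a : ℝ)| * k₁) := Real.log_nonneg h7
  rw [h3]
  calc |(h : ℝ) * k₂ * (p.w₂ : ℝ) ^ 2 * p.x - a * k₁ * (p.w₁ : ℝ) ^ 2| ≤
      |(h : ℝ) * k₂ * (p.w₂ : ℝ) ^ 2 * p.x| + |a * k₁ * (p.w₁ : ℝ) ^ 2| := abs_sub _ _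
    _ = |(h : ℝ)| * k₂ * ((p.w₂ : ℝ) ^ 2 * p.x) + |(a : ℝ)| * k₁ * (p.w₁ : ℝ) ^ 2 := by
        simp only [abs_mul, abs_pow, Nat.abs_cast, abs_of_pos hx]
        ring
    _ ≤ |(h : ℝ)| * k₂ * (p.x : ℝ) ^ (2 * B + 1) + |(a : ℝ)| * k₁ * (p.x : ℝ) ^ (2 * B + 1) := by gcongr
    _ = (|(h : ℝ)| * k₂ + |(a : ℝ)| * k₁) * Real.exp ((2 * B + 1) * p.T) := by rw [o.rpow f]; ring
    _ = Real.exp (Real.log (|(h : ℝ)| * k₂ + |(a : ℝ)| * k₁)) * Real.exp ((2 * B + 1) * p.T) := by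
        rw [Real.exp_log (by linarith)]
    _ ≤ Real.exp (Real.log (|(h : ℝ)| * k₂ + |(a : ℝ)| * k₁) * p.T) * Real.exp ((2 * B + 1) * p.T) := by
        gcongr
        exact le_mul_of_one_le_right h8 (o.T1 f)
    _ = _ := by
        rw [← Real.exp_add]
        congr 1
        ring

end

/-- the constant -/
noncomputable def KK (a h : ℤ) (k₁ k₂ : ℕ) (B : ℝ) : ℝ := Real.log (|(h : ℝ)| * k₂ + |(a : ℝ)| * k₁) + 2 * B + 1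

lemma KK_pos (f : Fix a h k₁ k₂ B θ δ) : 1 ≤ KK a h k₁ k₂ B ∧ B ≤ KK a h k₁ k₂ B := by
  have h1 : (1 : ℝ) ≤ |(h : ℝ)| := by
    have : 1 ≤ |h| := Int.one_le_abs f.h0
    exact_mod_cast this
  have h1' : (1 : ℝ) ≤ |(a : ℝ)| := by
    have : 1 ≤ |a| := Int.one_le_abs f.a0
    exact_mod_cast this
  have h2 : (1 : ℝ) ≤ k₂ := by exact_mod_cast Nat.pos_of_ne_zero f.k2
  have h2' : (1 : ℝ) ≤ k₁ := by exact_mod_cast Nat.pos_of_ne_zero f.k1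
  have h7 : (1 : ℝ) ≤ |(h : ℝ)| * k₂ + |(a : ℝ)| * k₁ := by nlinarith
  have h8 : 0 ≤ Real.log (|(h : ℝ)| * k₂ + |(a : ℝ)| * k₁) := Real.log_nonneg h7
  have := f.B0
  unfold KK
  constructor <;> linarith

section
variable (f : Fix a h k₁ k₂ B θ δ) (o : Ok S a h k₁ k₂ B θ δ p)
include f o

lemma Ok.lw1 : 0 ≤ Real.log p.w₁ ∧ Real.log p.w₁ ≤ KK a h k₁ k₂ B * p.T := by
  have h1 : (1 : ℝ) ≤ p.w₁ := by exact_mod_cast Nat.pos_of_ne_zero o.s1.1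
  refine ⟨Real.log_nonneg h1, ?_⟩
  have h2 : Real.log p.w₁ ≤ B * p.T := by
    rw [Real.log_le_iff_le_exp (o.w1 f), ← o.rpow f]
    exact o.b1
  refine h2.trans (mul_le_mul_of_nonneg_right (KK_pos f).2 (by linarith [o.T1 f]))

lemma Ok.lw2 : 0 ≤ Real.log p.w₂ ∧ Real.log p.w₂ ≤ KK a h k₁ k₂ B * p.T := by
  have h1 : (1 : ℝ) ≤ p.w₂ := by exact_mod_cast Nat.pos_of_ne_zero o.s2.1
  refine ⟨Real.log_nonneg h1, ?_⟩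
  have h2 : Real.log p.w₂ ≤ B * p.T := by
    rw [Real.log_le_iff_le_exp (o.w2 f), ← o.rpow f]
    exact o.b2
  refine h2.trans (mul_le_mul_of_nonneg_right (KK_pos f).2 (by linarith [o.T1 f]))

lemma Ok.lnr (hr : p.r ≠ 0) : 0 ≤ Real.log p.n ∧ 0 ≤ Real.log |(p.r : ℝ)| ∧
    Real.log p.n + Real.log |(p.r : ℝ)| ≤ KK a h k₁ k₂ B * p.T := by
  have h1 := o.n0 f
  have h2 : (1 : ℝ) ≤ |(p.r : ℝ)| := by
    have : 1 ≤ |p.r| := Int.one_le_abs hr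
    exact_mod_cast this
  refine ⟨Real.log_nonneg h1, Real.log_nonneg h2, ?_⟩
  rw [← Real.log_mul (by positivity) (by positivity), Real.log_le_iff_le_exp (by positivity)]
  exact o.nr f

end

end Pool.Agent.Zk43.HS
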