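import Mathlib
import Pool.Agent.Zk43.HS.Pt

/-!
# Integral points of Mordell curves with abscissa near an `S`-unit: the relations
-/

set_option autoImplicit false

open Finset Filter Topology

namespace Pool.Agent.Zk43.HS

variable {S : Finset ℕ} {a h : ℤ} {k₁ k₂ : ℕ} {B θ δ : ℝ} {p : Pt}

lemma alg_s (a h : ℤ) (k₁ k₂ : ℕ) : IsAlgebraic ℚ (√(AA a h k₁ k₂)) := by
  rcases le_or_gt (AA a h k₁ k₂) 0 with h0 | h0
  · rw [Real.sqrt_eq_zero_of_nonpos h0]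
    exact isAlgebraic_zero
  · refine IsAlgebraic.of_pow (n := 2) (by norm_num) ?_
    rw [Real.sq_sqrt h0.le]
    have : AA a h k₁ k₂ = algebraMap ℚ ℝ ((a : ℚ) * k₁ / (h * k₂)) := by
      unfold AA
      simp
    rw [this]
    exact isAlgebraic_algebraMap _

lemma alg_q (q : ℚ) : IsAlgebraic ℚ (q : ℝ) := isAlgebraic_algebraMap (A := ℝ) q

/-- a constant which is small is zero -/
lemma lim0 {Q C ρ : ℝ} (hρ : 0 < ρ)
    (H : ∀ t : ℝ, ∃ T : ℝ, t ≤ T ∧ ∃ v : ℝ, |v| ≤ C * Real.exp (-(ρ * T)) ∧ Q + v = 0) :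
    Q = 0 := by
  by_contra hQ
  have hQ' : 0 < |Q| := abs_pos.2 hQ
  obtain ⟨T, hT, v, hv, hQv⟩ := H ((|C| / |Q| + 1) / ρ)
  have h1 : |Q| = |v| := by
    have : Q = -v := by linarith
    rw [this, abs_neg]
  have h2 : |C| / |Q| + 1 ≤ ρ * T := by
    rw [div_le_iff₀ hρ] at hT
    linarith
  have h3 : ρ * T + 1 ≤ Real.exp (ρ * T) := Real.add_one_le_exp _
  have h4 : |C| / |Q| < Real.exp (ρ * T) := by linarith
  rw [div_lt_iff₀ hQ'] at h4
  have h5 : |Q| ≤ |C| * Real.exp (-(ρ * T)) := by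
    rw [h1]
    exact hv.trans (mul_le_mul_of_nonneg_right (le_abs_self _) (Real.exp_pos _).le)
  have h6 : |Q| * Real.exp (ρ * T) ≤ |C| := by
    calc |Q| * Real.exp (ρ * T) ≤ (|C| * Real.exp (-(ρ * T))) * Real.exp (ρ * T) := by gcongr
      _ = |C| := by rw [mul_assoc, ← Real.exp_add]; simp
  linarith

lemma exp_lt {t C : ℝ} (h : |C| + 1 ≤ t) : C < Real.exp t := by
  have h1 := Real.add_one_le_exp t
  have h2 := le_abs_self C
  linarith

/-- **the case `r = 0`** -/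
theorem case0 (f : Fix a h k₁ k₂ B θ δ) :
    ∃ t : ℝ, ∀ p : Pt, Ok S a h k₁ k₂ B θ δ p → p.r = 0 → p.T < t := by
  by_contra hcon
  push Not at hcon
  set 𝒜 : Set Pt := {p | Ok S a h k₁ k₂ B θ δ p ∧ p.r = 0} with h𝒜
  have hunb : ∀ t : ℝ, ∃ p ∈ 𝒜, t ≤ p.T := by
    intro t
    obtain ⟨p, h1, h2, h3⟩ := hcon t
    exact ⟨p, ⟨h1, h2⟩, h3⟩
  have hApos : 0 < AA a h k₁ k₂ := by
    obtain ⟨p, h1, -⟩ := hunb 0
    exact h1.1.Apos f
  set s := √(AA a h k₁ k₂) with hs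
  have hs0 : 0 < s := Real.sqrt_pos.2 hApos
  have hKK := KK_pos f
  obtain ⟨c, hc0, hc⟩ := seqSub (n := 2) (by norm_num) S !![1, 0; -s ^ 3, 1]
    (by
      intro i j
      fin_cases i <;> fin_cases j
      · exact isAlgebraic_one
      · exact isAlgebraic_zero
      · exact ((alg_s a h k₁ k₂).pow 3).neg
      · exact isAlgebraic_one)
    (by
      intro i j hij
      fin_cases i <;> fin_cases j <;> simp_all)
    (by intro i; fin_cases i <;> simp)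
    𝒜 Pt.T (fun p => ![(p.w₁ : ℤ) ^ 3, (p.w₂ : ℤ) ^ 3 * p.y]) (fun p => ![p.w₁ ^ 3, p.w₂ ^ 3])
    (fun p => ![3 * Real.log p.w₁, 3 * Real.log p.w₂ - δ * p.T])
    (3 * KK a h k₁ k₂ B + 1 + δ) δ (by linarith [f.δ0]) f.δ0 hunb
    (fun p hp => hp.1.T1 f)
    (fun p hp h0 => by
      have h1 := congrFun h0 0
      simp only [Matrix.cons_val_zero, Pi.zero_apply] at h1
      have h2 := hp.1.s1.1
      have h3 : (p.w₁ : ℤ) ≠ 0 := by exact_mod_cast h2
      exact pow_ne_zero 3 h3 h1)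
    (fun p hp l => by
      fin_cases l
      · exact hp.1.s1.pow 3
      · exact hp.1.s2.pow 3)
    (fun p hp l => by
      have hT := hp.1.T1 f
      have hδT : 0 ≤ δ * p.T := mul_nonneg f.δ0.le (by linarith)
      obtain ⟨h1, h2⟩ := hp.1.lw1 f
      obtain ⟨h3, h4⟩ := hp.1.lw2 f
      have g1 := hp.1.w1 f
      have g2 := hp.1.w2 f
      fin_cases l
      · show (((p.w₁ ^ 3 : ℕ)) : ℝ) ≤ _
        push_cast
        rw [← Real.log_le_iff_le_exp (by positivity), Real.log_pow]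
        push_cast
        nlinarith
      · show (((p.w₂ ^ 3 : ℕ)) : ℝ) ≤ _
        push_cast
        rw [← Real.log_le_iff_le_exp (by positivity), Real.log_pow]
        push_cast
        nlinarith)
    (fun p hp l => by
      fin_cases l
      · show (((p.w₁ ^ 3 : ℕ)) : ℤ) ∣ (p.w₁ : ℤ) ^ 3
        push_cast
        exact dvd_rfl
      · show (((p.w₂ ^ 3 : ℕ)) : ℤ) ∣ (p.w₂ : ℤ) ^ 3 * p.y
        push_cast
        exact Dvd.intro _ rfl)
    (fun p hp l => by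
      have hT := hp.1.T1 f
      have hδT : 0 ≤ δ * p.T := mul_nonneg f.δ0.le (by linarith)
      obtain ⟨h1, h2⟩ := hp.1.lw1 f
      obtain ⟨h3, h4⟩ := hp.1.lw2 f
      fin_cases l
      · show |3 * Real.log p.w₁| ≤ _
        rw [abs_le]
        constructor <;> nlinarith
      · show |3 * Real.log p.w₂ - δ * p.T| ≤ _
        rw [abs_le]
        constructor <;> nlinarith)
    (fun p hp l => by
      have g1 := hp.1.w1 f
      have g2 := hp.1.w2 f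
      fin_cases l
      · show |∑ j, (!![1, 0; -s ^ 3, 1] : Matrix (Fin 2) (Fin 2) ℝ) 0 j *
          ((![(p.w₁ : ℤ) ^ 3, (p.w₂ : ℤ) ^ 3 * p.y] j : ℤ) : ℝ)| ≤ Real.exp (3 * Real.log p.w₁)
        simp [Fin.sum_univ_two]
        rw [mul_comm, Real.exp_mul, Real.exp_log g1]
        norm_cast
      · show |∑ j, (!![1, 0; -s ^ 3, 1] : Matrix (Fin 2) (Fin 2) ℝ) 1 j *
          ((![(p.w₁ : ℤ) ^ 3, (p.w₂ : ℤ) ^ 3 * p.y] j : ℤ) : ℝ)| ≤
            Real.exp (3 * Real.log p.w₂ - δ * p.T)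
        have hR0 : p.R h k₂ = 0 := by
          unfold Pt.R
          rw [hp.2]
          simp
        have h1 := hp.1.Lle f
        rw [hR0] at h1
        have h2 : p.L a h k₁ k₂ = p.y - p.V a h k₁ k₂ ^ 3 := by
          unfold Pt.L
          rw [hR0]
          ring
        rw [h2] at h1
        have h3 : |(p.y : ℝ) - p.V a h k₁ k₂ ^ 3| ≤ Real.exp (-(δ * p.T)) := by
          refine h1.trans ?_
          rw [abs_zero, zero_pow (by norm_num), zero_div, add_zero, hp.1.rpow f]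
          refine Real.exp_le_exp.2 ?_
          have h8 := hp.1.T1 f
          have h9 : 0 ≤ θ * p.T := mul_nonneg f.θ0 (by linarith)
          linarith
        have h4 : ∑ j, (!![1, 0; -s ^ 3, 1] : Matrix (Fin 2) (Fin 2) ℝ) 1 j *
          ((![(p.w₁ : ℤ) ^ 3, (p.w₂ : ℤ) ^ 3 * p.y] j : ℤ) : ℝ) =
            (p.w₂ : ℝ) ^ 3 * ((p.y : ℝ) - p.V a h k₁ k₂ ^ 3) := by
          simp [Fin.sum_univ_two]
          unfold Pt.V Pt.W
          rw [← hs]
          field_simp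
          ring
        rw [h4, abs_mul, abs_of_pos (pow_pos g2 3), Real.exp_sub, mul_comm 3,
          Real.exp_mul, Real.exp_log g2]
        have h5 : (p.w₂ : ℝ) ^ (3 : ℝ) = (p.w₂ : ℝ) ^ 3 := by norm_cast
        rw [h5, div_eq_mul_inv, ← Real.exp_neg]
        gcongr)
    (fun p hp => by
      have g1 := hp.1.w1 f
      have g2 := hp.1.w2 f
      rw [Fin.sum_univ_two, Fin.sum_univ_two]
      show 3 * Real.log p.w₁ + (3 * Real.log p.w₂ - δ * p.T) + δ * p.T ≤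
        Real.log ((p.w₁ ^ 3 : ℕ) : ℝ) + Real.log ((p.w₂ ^ 3 : ℕ) : ℝ)
      push_cast
      rw [Real.log_pow, Real.log_pow]
      push_cast
      linarith)
  -- the relation
  have hc1 : c 1 ≠ 0 := by
    intro h1
    obtain ⟨p, hp, -, hrel⟩ := hc 0
    rw [Fin.sum_univ_two, h1, zero_mul, add_zero] at hrel
    simp only [Matrix.cons_val_zero] at hrel
    have h3 : (p.w₁ : ℤ) ≠ 0 := by exact_mod_cast hp.1.s1.1
    have h4 := (mul_eq_zero.1 hrel).resolve_right (pow_ne_zero 3 h3)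
    apply hc0
    funext i
    fin_cases i
    · exact h4
    · exact h1
  have hc1R : (c 1 : ℝ) ≠ 0 := by exact_mod_cast hc1
  set κ : ℝ := -((c 0 : ℝ) / c 1) / s ^ 3 with hκ
  have hyV : ∀ p ∈ 𝒜, ∑ l, c l * (![(p.w₁ : ℤ) ^ 3, (p.w₂ : ℤ) ^ 3 * p.y]) l = 0 →
      (p.y : ℝ) = κ * p.V a h k₁ k₂ ^ 3 := by
    intro p hp hrel
    have g1 := hp.1.w1 f
    have g2 := hp.1.w2 f
    rw [Fin.sum_univ_two] at hrel
    simp only [Matrix.cons_val_zero, Matrix.cons_val_one] at hrel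
    have h1 : (c 0 : ℝ) * (p.w₁ : ℝ) ^ 3 + c 1 * ((p.w₂ : ℝ) ^ 3 * p.y) = 0 := by exact_mod_cast hrel
    unfold Pt.V Pt.W
    rw [hκ, ← hs]
    field_simp
    linarith
  have hLs : ∀ p ∈ 𝒜, |(p.y : ℝ) - p.V a h k₁ k₂ ^ 3| ≤ 1 ∧ (p.x : ℝ) = p.V a h k₁ k₂ ^ 2 := by
    intro p hp
    have hR0 : p.R h k₂ = 0 := by
      unfold Pt.R
      rw [hp.2]
      simp
    have h1 := hp.1.Lle f
    rw [hR0] at h1
    have h2 : p.L a h k₁ k₂ = p.y - p.V a h k₁ k₂ ^ 3 := by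
      unfold Pt.L
      rw [hR0]
      ring
    rw [h2] at h1
    refine ⟨h1.trans ?_, ?_⟩
    · rw [abs_zero, zero_pow (by norm_num), zero_div, add_zero, hp.1.rpow f]
      rw [← Real.exp_zero]
      refine Real.exp_le_exp.2 ?_
      have h8 := hp.1.T1 f
      have h9 : 0 ≤ θ * p.T := mul_nonneg f.θ0 (by linarith)
      have h10 : 0 ≤ δ * p.T := mul_nonneg f.δ0.le (by linarith)
      linarith
    · rw [hp.1.Vsq f, hR0, sub_zero]
  by_cases hκ1 : κ = 1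
  · obtain ⟨p, hp, -, hrel⟩ := hc 0
    have h1 := hyV p hp hrel
    rw [hκ1, one_mul] at h1
    have h2 := (hLs p hp).2
    apply hp.1.ne
    have h3 : (p.y : ℝ) ^ 2 = (p.x : ℝ) ^ 3 := by
      rw [h1, h2]
      ring
    exact_mod_cast h3
  · have hk : 0 < |κ - 1| := abs_pos.2 (sub_ne_zero.2 hκ1)
    obtain ⟨p, hp, ht, hrel⟩ := hc (abs (2 / |κ - 1|) + 1)
    have h1 := hyV p hp hrel
    have h2 := (hLs p hp).1
    have hV := hp.1.Vpos f
    have h3 : |κ - 1| * p.V a h k₁ k₂ ^ 3 ≤ 1 := by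
      rw [h1] at h2
      have : κ * p.V a h k₁ k₂ ^ 3 - p.V a h k₁ k₂ ^ 3 = (κ - 1) * p.V a h k₁ k₂ ^ 3 := by ring
      rw [this, abs_mul, abs_of_pos (pow_pos hV 3)] at h2
      exact h2
    have h4 := hp.1.V1 f
    have h5 := hp.1.xR f
    have h6 : 1 ≤ p.V a h k₁ k₂ := by
      by_contra hc'
      push Not at hc'
      have : p.V a h k₁ k₂ ^ 2 < 1 := by nlinarith
      linarith
    have h7 : (p.x : ℝ) / 2 ≤ p.V a h k₁ k₂ ^ 3 := by
      calc (p.x : ℝ) / 2 ≤ p.V a h k₁ k₂ ^ 2 := h4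
        _ ≤ p.V a h k₁ k₂ ^ 3 := pow_le_pow_right₀ h6 (by norm_num)
    have h8 := exp_lt ht
    rw [hp.1.expT f, div_lt_iff₀ hk] at h8
    nlinarith

/-- **the case of a tiny remainder** -/
theorem caseR (f : Fix a h k₁ k₂ B θ δ) :
    ∃ t : ℝ, ∀ p : Pt, Ok S a h k₁ k₂ B θ δ p → p.r ≠ 0 →
      |p.R h k₂| ≤ Real.exp (-(2 * et δ * p.T)) → p.T < t := by
  by_contra hcon
  push Not at hcon
  have hh : (1 : ℝ) ≤ |(h : ℝ)| := by
    have : 1 ≤ |h| := Int.one_le_abs f.h0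
    exact_mod_cast this
  have hhk : (1 : ℝ) ≤ k₂ := by exact_mod_cast Nat.pos_of_ne_zero f.k2
  have haa : (0 : ℝ) < |(a : ℝ)| := abs_pos.2 (by exact_mod_cast f.a0)
  have hkk : (0 : ℝ) < k₁ := by exact_mod_cast Nat.pos_of_ne_zero f.k1
  obtain ⟨ℓ, hℓ⟩ : ∃ ℓ : ℝ, ℓ = Real.log (|(h : ℝ)| * k₂) := ⟨_, rfl⟩
  have hhk1 : (1 : ℝ) ≤ |(h : ℝ)| * k₂ := by nlinarith
  have hℓ0 : 0 ≤ ℓ := by rw [hℓ]; exact Real.log_nonneg hhk1
  have hKK := KK_pos f
  have hB0 := f.B0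
  have hℓK : ℓ ≤ KK a h k₁ k₂ B := by
    unfold KK
    have : ℓ ≤ Real.log (|(h : ℝ)| * k₂ + |(a : ℝ)| * k₁) := by
      rw [hℓ]
      apply Real.log_le_log (by linarith)
      nlinarith
    linarith
  set 𝒜 : Set Pt := {p | Ok S a h k₁ k₂ B θ δ p ∧ p.r ≠ 0 ∧ |p.R h k₂| ≤ Real.exp (-(2 * et δ * p.T)) ∧
    ℓ / et δ ≤ p.T} with h𝒜
  have hunb : ∀ t : ℝ, ∃ p ∈ 𝒜, t ≤ p.T := by
    intro t
    obtain ⟨p, h1, h2, h3, h4⟩ := hcon (max t (ℓ / et δ))
    exact ⟨p, ⟨h1, h2, h3, (le_max_right _ _).trans h4⟩, (le_max_left _ _).trans h4⟩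
  obtain ⟨c, hc0, hc⟩ := seqSub (n := 2) (by norm_num) S
    !![1, 0; ((-(a * k₁) : ℚ) : ℝ), ((h * k₂ : ℚ) : ℝ)]
    (by
      intro i j
      fin_cases i <;> fin_cases j
      · exact isAlgebraic_one
      · exact isAlgebraic_zero
      · exact alg_q _
      · exact alg_q _)
    (by
      intro i j hij
      fin_cases i <;> fin_cases j <;> simp_all)
    (by
      intro i
      fin_cases i
      · simp
      · have h1 : (h : ℝ) ≠ 0 := by exact_mod_cast f.h0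
        have h2 : (k₂ : ℝ) ≠ 0 := by exact_mod_cast f.k2
        show ((h * k₂ : ℚ) : ℝ) ≠ 0
        push_cast
        exact mul_ne_zero h1 h2)
    𝒜 Pt.T (fun p => ![(p.w₁ : ℤ) ^ 2, (p.w₂ : ℤ) ^ 2 * p.x]) (fun p => ![p.w₁ ^ 2, p.w₂ ^ 2])
    (fun p => ![2 * Real.log p.w₁, 2 * Real.log p.w₂ + ℓ - 2 * et δ * p.T])
    (3 * KK a h k₁ k₂ B + 1) (et δ) (by linarith) (et_pos f.δ0) hunb
    (fun p hp => hp.1.T1 f)
    (fun p hp h0 => by
      have h1 := congrFun h0 0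
      simp only [Matrix.cons_val_zero, Pi.zero_apply] at h1
      have h2 := hp.1.s1.1
      have h3 : (p.w₁ : ℤ) ≠ 0 := by exact_mod_cast h2
      exact pow_ne_zero 2 h3 h1)
    (fun p hp l => by
      fin_cases l
      · exact hp.1.s1.pow 2
      · exact hp.1.s2.pow 2)
    (fun p hp l => by
      have hT := hp.1.T1 f
      obtain ⟨h1, h2⟩ := hp.1.lw1 f
      obtain ⟨h3, h4⟩ := hp.1.lw2 f
      have g1 := hp.1.w1 f
      have g2 := hp.1.w2 f
      fin_cases l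
      · show (((p.w₁ ^ 2 : ℕ)) : ℝ) ≤ _
        push_cast
        rw [← Real.log_le_iff_le_exp (by positivity), Real.log_pow]
        push_cast
        nlinarith
      · show (((p.w₂ ^ 2 : ℕ)) : ℝ) ≤ _
        push_cast
        rw [← Real.log_le_iff_le_exp (by positivity), Real.log_pow]
        push_cast
        nlinarith)
    (fun p hp l => by
      fin_cases l
      · show (((p.w₁ ^ 2 : ℕ)) : ℤ) ∣ (p.w₁ : ℤ) ^ 2
        push_cast
        exact dvd_rfl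
      · show (((p.w₂ ^ 2 : ℕ)) : ℤ) ∣ (p.w₂ : ℤ) ^ 2 * p.x
        push_cast
        exact Dvd.intro _ rfl)
    (fun p hp l => by
      have hT := hp.1.T1 f
      obtain ⟨h1, h2⟩ := hp.1.lw1 f
      obtain ⟨h3, h4⟩ := hp.1.lw2 f
      fin_cases l
      · show |2 * Real.log p.w₁| ≤ _
        rw [abs_le]
        constructor <;> nlinarith
      · show |2 * Real.log p.w₂ + ℓ - 2 * et δ * p.T| ≤ _
        have h5 : et δ * p.T ≤ 1 / 20 * p.T := mul_le_mul_of_nonneg_right (et_le δ).1 (by linarith)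
        have h6 : 0 ≤ et δ * p.T := mul_nonneg (et_pos f.δ0).le (by linarith)
        have h7 : ℓ ≤ KK a h k₁ k₂ B * p.T := hℓK.trans (le_mul_of_one_le_right (by linarith [hKK.1]) hT)
        rw [abs_le]
        constructor <;> nlinarith)
    (fun p hp l => by
      have g1 := hp.1.w1 f
      have g2 := hp.1.w2 f
      fin_cases l
      · show |∑ j, (!![1, 0; ((-(a * k₁) : ℚ) : ℝ), ((h * k₂ : ℚ) : ℝ)] : Matrix (Fin 2) (Fin 2) ℝ) 0 j *
          ((![(p.w₁ : ℤ) ^ 2, (p.w₂ : ℤ) ^ 2 * p.x] j : ℤ) : ℝ)| ≤ Real.exp (2 * Real.log p.w₁)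
        simp [Fin.sum_univ_two]
        rw [mul_comm, Real.exp_mul, Real.exp_log g1]
        norm_cast
      · show |∑ j, (!![1, 0; ((-(a * k₁) : ℚ) : ℝ), ((h * k₂ : ℚ) : ℝ)] : Matrix (Fin 2) (Fin 2) ℝ) 1 j *
          ((![(p.w₁ : ℤ) ^ 2, (p.w₂ : ℤ) ^ 2 * p.x] j : ℤ) : ℝ)| ≤
            Real.exp (2 * Real.log p.w₂ + ℓ - 2 * et δ * p.T)
        have hk0 : (k₂ : ℝ) ≠ 0 := by positivity
        have hh0 : (h : ℝ) ≠ 0 := by exact_mod_cast f.h0
        have h4 : ∑ j, (!![1, 0; ((-(a * k₁) : ℚ) : ℝ), ((h * k₂ : ℚ) : ℝ)] : Matrix (Fin 2) (Fin 2) ℝ) 1 j *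
          ((![(p.w₁ : ℤ) ^ 2, (p.w₂ : ℤ) ^ 2 * p.x] j : ℤ) : ℝ) =
            (h * k₂ * (p.w₂ : ℝ) ^ 2) * p.R h k₂ := by
          have h5 := hp.1.eqR f
          simp [Fin.sum_univ_two]
          unfold Pt.R
          rw [mul_div_cancel₀ _ (by positivity)]
          linarith
        rw [h4, abs_mul, abs_mul, abs_mul, abs_of_pos (pow_pos g2 2), Nat.abs_cast,
          Real.exp_sub, Real.exp_add, mul_comm 2, Real.exp_mul, Real.exp_log g2, hℓ,
          Real.exp_log (by linarith)]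
        have h5 : (p.w₂ : ℝ) ^ (2 : ℝ) = (p.w₂ : ℝ) ^ 2 := by norm_cast
        rw [h5, div_eq_mul_inv, ← Real.exp_neg]
        calc |(h : ℝ)| * k₂ * (p.w₂ : ℝ) ^ 2 * |p.R h k₂| ≤
            |(h : ℝ)| * k₂ * (p.w₂ : ℝ) ^ 2 * Real.exp (-(2 * et δ * p.T)) := by
              gcongr
              exact hp.2.2.1
          _ = _ := by ring)
    (fun p hp => by
      have g1 := hp.1.w1 f
      have g2 := hp.1.w2 f
      have g3 := hp.2.2.2
      rw [div_le_iff₀ (et_pos f.δ0)] at g3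
      rw [Fin.sum_univ_two, Fin.sum_univ_two]
      show 2 * Real.log p.w₁ + (2 * Real.log p.w₂ + ℓ - 2 * et δ * p.T) + et δ * p.T ≤
        Real.log ((p.w₁ ^ 2 : ℕ) : ℝ) + Real.log ((p.w₂ ^ 2 : ℕ) : ℝ)
      push_cast
      rw [Real.log_pow, Real.log_pow]
      push_cast
      linarith)
  have hApos : 0 < AA a h k₁ k₂ := by
    obtain ⟨p, h1, -⟩ := hunb 0
    exact h1.1.Apos f
  -- the relation
  have hc1 : c 1 ≠ 0 := by
    intro h1
    obtain ⟨p, hp, -, hrel⟩ := hc 0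
    rw [Fin.sum_univ_two, h1, zero_mul, add_zero] at hrel
    simp only [Matrix.cons_val_zero] at hrel
    have h3 : (p.w₁ : ℤ) ≠ 0 := by exact_mod_cast hp.1.s1.1
    have h4 := (mul_eq_zero.1 hrel).resolve_right (pow_ne_zero 2 h3)
    apply hc0
    funext i
    fin_cases i
    · exact h4
    · exact h1
  have hc1R : (c 1 : ℝ) ≠ 0 := by exact_mod_cast hc1
  set ρ : ℝ := -((c 0 : ℝ) / c 1) - AA a h k₁ k₂ with hρ
  have hRW : ∀ p ∈ 𝒜, ∑ l, c l * (![(p.w₁ : ℤ) ^ 2, (p.w₂ : ℤ) ^ 2 * p.x]) l = 0 →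
      p.R h k₂ = ρ * p.W ^ 2 := by
    intro p hp hrel
    have g1 := hp.1.w1 f
    have g2 := hp.1.w2 f
    rw [Fin.sum_univ_two] at hrel
    simp only [Matrix.cons_val_zero, Matrix.cons_val_one] at hrel
    have h1 : (c 0 : ℝ) * (p.w₁ : ℝ) ^ 2 + c 1 * ((p.w₂ : ℝ) ^ 2 * p.x) = 0 := by exact_mod_cast hrel
    have h2 : p.R h k₂ = p.x - AA a h k₁ k₂ * p.W ^ 2 := by linarith [hp.1.xeq f]
    have h3 : (p.x : ℝ) = -((c 0 : ℝ) / c 1) * p.W ^ 2 := by
      unfold Pt.W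
      field_simp
      linarith
    rw [h2, hρ, sub_mul, ← h3]
  have hρ0 : ρ ≠ 0 := by
    intro h0
    obtain ⟨p, hp, -, hrel⟩ := hc 0
    have h1 := hRW p hp hrel
    rw [h0, zero_mul] at h1
    have g2 := (hp.1.w2 f).ne'
    have g3 : (p.n : ℝ) ≠ 0 := by have := hp.1.n0 f; positivity
    have g4 : (p.r : ℝ) ≠ 0 := by exact_mod_cast hp.2.1
    have hk0 : (k₂ : ℝ) ≠ 0 := by positivity
    have hh0 : (h : ℝ) ≠ 0 := by exact_mod_cast f.h0
    unfold Pt.R at h1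
    rw [div_eq_zero_iff] at h1
    rcases h1 with h1 | h1
    · exact mul_ne_zero g3 g4 h1
    · exact mul_ne_zero (mul_ne_zero hh0 hk0) (pow_ne_zero 2 g2) h1
  have hρp : 0 < |ρ| := abs_pos.2 hρ0
  obtain ⟨p, hp, ht, hrel⟩ := hc (abs (2 * AA a h k₁ k₂ / |ρ|) + 1)
  have h1 := hRW p hp hrel
  have h2 := hp.2.2.1
  have hT := hp.1.T1 f
  have h3 : |p.R h k₂| ≤ 1 := by
    refine h2.trans ?_
    rw [← Real.exp_zero]
    have h6 : 0 ≤ et δ * p.T := mul_nonneg (et_pos f.δ0).le (by linarith)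
    exact Real.exp_le_exp.2 (by linarith)
  rw [h1, abs_mul, abs_of_nonneg (sq_nonneg p.W)] at h3
  have h4 := hp.1.V1 f
  have h5 : p.V a h k₁ k₂ ^ 2 = AA a h k₁ k₂ * p.W ^ 2 := by
    unfold Pt.V
    rw [mul_pow, Real.sq_sqrt hApos.le]
  rw [h5] at h4
  have h8 := exp_lt ht
  rw [hp.1.expT f, div_lt_iff₀ hρp] at h8
  have h9 : |ρ| * ((p.x : ℝ) / 2) ≤ AA a h k₁ k₂ := by
    calc |ρ| * ((p.x : ℝ) / 2) ≤ |ρ| * (AA a h k₁ k₂ * p.W ^ 2) := by gcongr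
      _ = AA a h k₁ k₂ * (|ρ| * p.W ^ 2) := by ring
      _ ≤ AA a h k₁ k₂ * 1 := by gcongr
      _ = _ := mul_one _
  nlinarith

end Pool.Agent.Zk43.HS
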