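import Mathlib
import Pool.Agent.Zk43.HS.Cases

/-!
# Integral points of Mordell curves with abscissa near an `S`-unit: the main case
-/

set_option autoImplicit false

open Finset Filter Topology

namespace Pool.Agent.Zk43.HS

variable {S : Finset ℕ} {a h : ℤ} {k₁ k₂ : ℕ} {B θ δ : ℝ} {p : Pt}

/-- a rational solution of the quartic equation is an integer -/
lemma integral {V : ℚ} {x y : ℤ} (hV : 0 < V) (hR : (x : ℚ) - V ^ 2 ≠ 0)
    (hy : 8 * y * V = -V ^ 4 + 6 * V ^ 2 * x + 3 * x ^ 2) : V ≤ 3 * ((x : ℚ) - V ^ 2) ^ 2 := by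
  have hint : IsIntegral ℤ V := by
    refine ⟨Polynomial.X ^ 4 + (Polynomial.C (-(6 * x)) * Polynomial.X ^ 2 +
      Polynomial.C (8 * y) * Polynomial.X + Polynomial.C (-(3 * x ^ 2))), ?_, ?_⟩
    · apply Polynomial.monic_X_pow_add
      refine lt_of_le_of_lt (Polynomial.degree_add_le _ _) (max_lt (lt_of_le_of_lt (Polynomial.degree_add_le _ _) (max_lt ?_ ?_)) ?_)
      · exact lt_of_le_of_lt (Polynomial.degree_C_mul_X_pow_le _ _) (by norm_num)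
      · exact lt_of_le_of_lt (Polynomial.degree_C_mul_X_le _) (by norm_num)
      · exact lt_of_le_of_lt Polynomial.degree_C_le (by norm_num)
    · simp only [Polynomial.eval₂_add, Polynomial.eval₂_mul, Polynomial.eval₂_pow, Polynomial.eval₂_X,
        Polynomial.eval₂_C]
      simp
      linarith
  obtain ⟨v, hv⟩ := IsIntegrallyClosed.isIntegral_iff.1 hint
  have hv' : (v : ℚ) = V := hv
  rw [← hv'] at hV hR hy ⊢
  have hv0 : 0 < v := by exact_mod_cast hV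
  have hR0 : x - v ^ 2 ≠ 0 := by
    intro h0
    apply hR
    have : ((x - v ^ 2 : ℤ) : ℚ) = 0 := by rw [h0]; simp
    push_cast at this
    exact this
  have hyz : 8 * y * v = -v ^ 4 + 6 * v ^ 2 * x + 3 * x ^ 2 := by exact_mod_cast hy
  have hdvd : v ∣ 3 * (x - v ^ 2) ^ 2 := by
    refine ⟨8 * y - 12 * v * x + 4 * v ^ 3, ?_⟩
    linear_combination -hyz
  have h1 : 0 < 3 * (x - v ^ 2) ^ 2 := by positivity
  have h2 := Int.le_of_dvd h1 hdvd
  exact_mod_cast h2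

/-- the identity in the exceptional case -/
lemma exceptional {V R y x : ℝ} (hV : 0 < V) (hx : x = V ^ 2 + R)
    (hy : y = V ^ 3 + 3 / 2 * V * R + 3 / 8 * R ^ 2 / V) :
    y ^ 2 - x ^ 3 = R ^ 3 * (1 / 8 + 9 / 64 * (R / V ^ 2)) ∧
      8 * y * V = -V ^ 4 + 6 * V ^ 2 * x + 3 * x ^ 2 := by
  constructor
  · rw [hy, hx]
    field_simp
    ring
  · rw [hy, hx]
    field_simp
    ring

/-- the matrix of the linear forms -/
noncomputable def MM (h : ℤ) (k₂ : ℕ) (s : ℝ) : Matrix (Fin 4) (Fin 4) ℝ :=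
  !![1, 0, 0, 0; 0, 1, 0, 0; 0, 0, 1, 0;
    -(3 / 8) / (s * (h * k₂) ^ 2), -(3 / 2) * s / (h * k₂), -s ^ 3, 1]

def XX (p : Pt) : Fin 4 → ℤ :=
  ![(p.n : ℤ) ^ 2 * p.r ^ 2, (p.w₁ : ℤ) ^ 2 * p.n * p.r, (p.w₁ : ℤ) ^ 4, (p.w₁ : ℤ) * (p.w₂ : ℤ) ^ 3 * p.y]

def DD (p : Pt) : Fin 4 → ℕ := ![p.n ^ 2, p.w₁ ^ 2 * p.n, p.w₁ ^ 4, p.w₁ * p.w₂ ^ 3]

noncomputable def EE (δ : ℝ) (p : Pt) : Fin 4 → ℝ :=
  ![2 * Real.log p.n + 2 * Real.log |(p.r : ℝ)|, 2 * Real.log p.w₁ + Real.log p.n + Real.log |(p.r : ℝ)|,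
    4 * Real.log p.w₁, Real.log p.w₁ + 3 * Real.log p.w₂ + (Real.log 4 - δ * p.T - 3 * Real.log |(p.r : ℝ)|)]

section
variable (f : Fix a h k₁ k₂ B θ δ) (o : Ok S a h k₁ k₂ B θ δ p)
include f o

lemma Ok.form : ∑ j, MM h k₂ (√(AA a h k₁ k₂)) 3 j * (XX p j : ℝ) =
    (p.w₁ : ℝ) * (p.w₂ : ℝ) ^ 3 * p.L a h k₁ k₂ := by
  have g1 := o.w1 f
  have g2 := o.w2 f
  have hs : 0 < √(AA a h k₁ k₂) := Real.sqrt_pos.2 (o.Apos f)
  have hk0 : (k₂ : ℝ) ≠ 0 := by exact_mod_cast f.k2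
  have hh0 : (h : ℝ) ≠ 0 := by exact_mod_cast f.h0
  rw [Fin.sum_univ_four]
  show -(3 / 8) / (√(AA a h k₁ k₂) * (h * k₂) ^ 2) * (((p.n : ℤ) ^ 2 * p.r ^ 2 : ℤ) : ℝ) +
    -(3 / 2) * √(AA a h k₁ k₂) / (h * k₂) * (((p.w₁ : ℤ) ^ 2 * p.n * p.r : ℤ) : ℝ) +
    -√(AA a h k₁ k₂) ^ 3 * (((p.w₁ : ℤ) ^ 4 : ℤ) : ℝ) + 1 * (((p.w₁ : ℤ) * (p.w₂ : ℤ) ^ 3 * p.y : ℤ) : ℝ) = _
  unfold Pt.L Pt.V Pt.W Pt.R
  push_cast
  field_simp
  ring

lemma Ok.Lr (hr : p.r ≠ 0) : |p.L a h k₁ k₂| * |(p.r : ℝ)| ^ 3 ≤ 4 * Real.exp (-(δ * p.T)) := by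
  have hx := o.x0 f
  have hr1 : (1 : ℝ) ≤ |(p.r : ℝ)| := by
    have : 1 ≤ |p.r| := Int.one_le_abs hr
    exact_mod_cast this
  have hV := o.Vpos f
  have h1 := o.Lle f
  have h2 : (p.x : ℝ) ^ (-(3 * θ) - δ) * |(p.r : ℝ)| ^ 3 ≤ Real.exp (-(δ * p.T)) := by
    calc (p.x : ℝ) ^ (-(3 * θ) - δ) * |(p.r : ℝ)| ^ 3 ≤ (p.x : ℝ) ^ (-(3 * θ) - δ) * ((p.x : ℝ) ^ θ) ^ 3 := by
          gcongr
          exact o.c2
      _ = Real.exp (-(δ * p.T)) := by
          rw [o.rpow f, o.rpow f, ← Real.exp_nat_mul, ← Real.exp_add]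
          congr 1
          push_cast
          ring
  have h3 : |p.R h k₂| ^ 3 / p.V a h k₁ k₂ ^ 3 * |(p.r : ℝ)| ^ 3 ≤ 3 * Real.exp (-(δ * p.T)) := by
    have h4 : (p.x : ℝ) ^ 3 / 8 ≤ (p.V a h k₁ k₂ ^ 3) ^ 2 := by
      calc (p.x : ℝ) ^ 3 / 8 = ((p.x : ℝ) / 2) ^ 3 := by ring
        _ ≤ (p.V a h k₁ k₂ ^ 2) ^ 3 := pow_le_pow_left₀ (by linarith) (o.V1 f) 3
        _ = _ := by ring
    have h5 : Real.exp (3 / 2 * p.T) ≤ 3 * p.V a h k₁ k₂ ^ 3 := by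
      rw [← sq_le_sq₀ (Real.exp_pos _).le (by positivity)]
      have h6 : Real.exp (3 / 2 * p.T) ^ 2 = (p.x : ℝ) ^ 3 := by
        rw [← o.expT f, ← Real.exp_nat_mul, ← Real.exp_nat_mul]
        congr 1
        push_cast
        ring
      rw [h6, mul_pow]
      have : 0 ≤ (p.x : ℝ) ^ 3 := by positivity
      linarith
    have h6 : (|p.R h k₂| * |(p.r : ℝ)|) ^ 3 ≤ Real.exp (3 / 2 * p.T) * Real.exp (-(δ * p.T)) := by
      calc (|p.R h k₂| * |(p.r : ℝ)|) ^ 3 ≤ ((p.x : ℝ) ^ (1 / 2 - δ)) ^ 3 :=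
            pow_le_pow_left₀ (by positivity) (o.Rr f) 3
        _ = Real.exp (3 * ((1 / 2 - δ) * p.T)) := by
            rw [o.rpow f, ← Real.exp_nat_mul]
            push_cast
            rfl
        _ ≤ Real.exp (3 / 2 * p.T + -(δ * p.T)) := by
            refine Real.exp_le_exp.2 ?_
            have := o.T1 f
            have := f.δ0
            nlinarith
        _ = _ := Real.exp_add _ _
    calc |p.R h k₂| ^ 3 / p.V a h k₁ k₂ ^ 3 * |(p.r : ℝ)| ^ 3 =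
        (|p.R h k₂| * |(p.r : ℝ)|) ^ 3 / p.V a h k₁ k₂ ^ 3 := by ring
      _ ≤ (Real.exp (3 / 2 * p.T) * Real.exp (-(δ * p.T))) / p.V a h k₁ k₂ ^ 3 := by gcongr
      _ ≤ ((3 * p.V a h k₁ k₂ ^ 3) * Real.exp (-(δ * p.T))) / p.V a h k₁ k₂ ^ 3 := by gcongr
      _ = 3 * Real.exp (-(δ * p.T)) := by field_simp
  calc |p.L a h k₁ k₂| * |(p.r : ℝ)| ^ 3 ≤
      ((p.x : ℝ) ^ (-(3 * θ) - δ) + |p.R h k₂| ^ 3 / p.V a h k₁ k₂ ^ 3) * |(p.r : ℝ)| ^ 3 := by gcongr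
    _ = (p.x : ℝ) ^ (-(3 * θ) - δ) * |(p.r : ℝ)| ^ 3 +
        |p.R h k₂| ^ 3 / p.V a h k₁ k₂ ^ 3 * |(p.r : ℝ)| ^ 3 := by ring
    _ ≤ _ := by linarith

/-- the estimates for large `T` -/
lemma Ok.est (hr : p.r ≠ 0) (hR : Real.exp (-(2 * et δ * p.T)) < |p.R h k₂|) :
    0 < |p.R h k₂| ∧
    |p.R h k₂ / p.V a h k₁ k₂ ^ 2| ≤ 2 * Real.exp (-(et δ * p.T)) ∧
    |p.L a h k₁ k₂ / p.V a h k₁ k₂ ^ 3| ≤ 9 * Real.exp (-(et δ * p.T)) ∧
    |p.L a h k₁ k₂ / (p.V a h k₁ k₂ * p.R h k₂)| ≤ 6 * Real.exp (-(et δ * p.T)) ∧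
    |p.L a h k₁ k₂ * p.V a h k₁ k₂ / p.R h k₂ ^ 2| ≤ 4 * Real.exp (-(et δ * p.T)) := by
  have hx := o.x0 f
  have hT := o.T1 f
  have hV := o.Vpos f
  have hV1 := o.V1 f
  have hV2 := o.V2 f
  have hδ := f.δ0
  have hδT : 0 ≤ δ * p.T := mul_nonneg f.δ0.le (by linarith)
  have he1 : et δ * p.T ≤ 1 / 20 * p.T := mul_le_mul_of_nonneg_right (et_le δ).1 (by linarith)
  have he2 : et δ * p.T ≤ δ / 20 * p.T := mul_le_mul_of_nonneg_right (et_le δ).2 (by linarith)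
  have he3 : 0 ≤ et δ * p.T := mul_nonneg (et_pos f.δ0).le (by linarith)
  set V := p.V a h k₁ k₂ with hVdef
  set R := p.R h k₂ with hRdef
  set L := p.L a h k₁ k₂ with hLdef
  set ε := Real.exp (-(et δ * p.T)) with hε
  have hε0 : 0 < ε := Real.exp_pos _
  have hε1 : ε ≤ 1 := by
    rw [hε, ← Real.exp_zero]
    exact Real.exp_le_exp.2 (by linarith)
  have hRp : 0 < |R| := (Real.exp_pos _).trans hR
  have hRle : |R| ≤ Real.exp (1 / 2 * p.T) := by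
    refine (o.Rle f).trans ?_
    rw [o.rpow f]
    exact Real.exp_le_exp.2 (by nlinarith)
  have hxe : (p.x : ℝ) = Real.exp p.T := (o.expT f).symm
  -- V
  have hVlo : Real.exp (1 / 2 * p.T) ≤ 2 * V := by
    rw [← sq_le_sq₀ (Real.exp_pos _).le (by positivity)]
    have h6 : Real.exp (1 / 2 * p.T) ^ 2 = p.x := by
      rw [hxe, ← Real.exp_nat_mul]
      congr 1
      push_cast
      ring
    rw [h6]
    nlinarith
  have hVhi : V ≤ 2 * Real.exp (1 / 2 * p.T) := by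
    rw [← sq_le_sq₀ hV.le (by positivity)]
    have h6 : Real.exp (1 / 2 * p.T) ^ 2 = p.x := by
      rw [hxe, ← Real.exp_nat_mul]
      congr 1
      push_cast
      ring
    rw [mul_pow, h6]
    nlinarith
  have hVge1 : 1 ≤ V := by
    have h4 := o.xR f
    by_contra hc'
    push Not at hc'
    have : V ^ 2 < 1 := by nlinarith
    linarith
  -- rho
  set ρ := |R| / V ^ 2 with hρ
  have hρ0 : 0 ≤ ρ := by positivity
  have hρ1 : ρ ≤ 2 * ε := by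
    rw [hρ, div_le_iff₀ (by positivity)]
    have h7 : Real.exp (1 / 2 * p.T) ≤ Real.exp p.T * ε := by
      rw [hε, ← Real.exp_add]
      exact Real.exp_le_exp.2 (by linarith)
    calc |R| ≤ Real.exp (1 / 2 * p.T) := hRle
      _ ≤ Real.exp p.T * ε := h7
      _ = p.x * ε := by rw [hxe]
      _ ≤ (2 * V ^ 2) * ε := by
          apply mul_le_mul_of_nonneg_right _ hε0.le
          linarith
      _ = _ := by ring
  have hρ2 : ρ ≤ 2 := hρ1.trans (by linarith)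
  obtain ⟨D, hD⟩ : ∃ D, D = Real.exp (-((1 / 2 + δ) * p.T)) := ⟨_, rfl⟩
  have hD0 : 0 < D := by rw [hD]; exact Real.exp_pos _
  have hDV : D * V ≤ 2 * ε := by
    calc D * V ≤ D * (2 * Real.exp (1 / 2 * p.T)) := by gcongr
      _ = 2 * (D * Real.exp (1 / 2 * p.T)) := by ring
      _ ≤ 2 * ε := by
          rw [hD, hε, ← Real.exp_add]
          gcongr
          nlinarith
  have hRV : |R| ≤ 2 * V := hRle.trans hVlo
  have hL1 : |L| ≤ D * |R| ^ 2 + |R| ^ 3 / V ^ 3 := by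
    rw [hD]
    exact o.Lle2 f hr hR
  have hDR : D * |R| ≤ 4 * ε := by
    calc D * |R| ≤ D * (2 * V) := by gcongr
      _ = 2 * (D * V) := by ring
      _ ≤ 2 * (2 * ε) := by gcongr
      _ = _ := by ring
  refine ⟨hRp, ?_, ?_, ?_, ?_⟩
  · rw [abs_div, abs_of_pos (pow_pos hV 2)]
    exact hρ1
  · rw [abs_div, abs_of_pos (pow_pos hV 3), div_le_iff₀ (pow_pos hV 3)]
    have h8 : D * |R| ^ 2 ≤ ε * V ^ 3 := by
      have h8a : D * |R| ^ 2 = (D * |R|) * |R| := by ring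
      have h8b : |R| = ρ * V ^ 2 := by rw [hρ]; field_simp
      have h8c : |R| ≤ Real.exp (1 / 2 * p.T) := hRle
      -- `D R² ≤ exp (-(1/2+δ) T) exp T ≤ ε V`
      calc D * |R| ^ 2 ≤ D * Real.exp (1 / 2 * p.T) ^ 2 := by gcongr
        _ = Real.exp (1 / 2 * p.T) * Real.exp (-(δ * p.T)) := by
            rw [hD, ← Real.exp_nat_mul, ← Real.exp_add, ← Real.exp_add]
            congr 1
            push_cast
            ring
        _ ≤ (2 * V) * Real.exp (-(δ * p.T)) := by gcongr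
        _ ≤ (2 * V) * ε := by
            gcongr
            rw [hε]
            exact Real.exp_le_exp.2 (by linarith)
        _ = ε * (2 * V) := by ring
        _ ≤ ε * V ^ 3 := by
            gcongr
            have h4 := o.xR f
            nlinarith [hV1]
    have h9 : |R| ^ 3 / V ^ 3 ≤ 8 * ε * V ^ 3 := by
      have h10 : |R| ^ 3 / V ^ 3 = ρ ^ 3 * V ^ 3 := by
        rw [hρ]
        field_simp
      rw [h10]
      have h11 : ρ ^ 3 ≤ 8 * ε := by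
        calc ρ ^ 3 = ρ * ρ * ρ := by ring
          _ ≤ 2 * 2 * (2 * ε) := by gcongr
          _ = _ := by ring
      gcongr
    linarith
  · rw [abs_div, abs_mul, abs_of_pos hV, div_le_iff₀ (by positivity)]
    have h8 : D * |R| ^ 2 ≤ 2 * ε * (V * |R|) := by
      have h8a : D * |R| ≤ 2 * ε * V := by
        calc D * |R| ≤ D * Real.exp (1 / 2 * p.T) := by gcongr
          _ = Real.exp (-(δ * p.T)) := by
              rw [hD, ← Real.exp_add]
              congr 1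
              ring
          _ ≤ ε := by
              rw [hε]
              exact Real.exp_le_exp.2 (by linarith)
          _ = ε * 1 := (mul_one _).symm
          _ ≤ ε * (2 * V) := by gcongr; linarith
          _ = 2 * ε * V := by ring
      calc D * |R| ^ 2 = (D * |R|) * |R| := by ring
        _ ≤ (2 * ε * V) * |R| := by gcongr
        _ = _ := by ring
    have h9 : |R| ^ 3 / V ^ 3 ≤ 4 * ε * (V * |R|) := by
      have h10 : |R| ^ 3 / V ^ 3 = ρ ^ 2 * (V * |R|) := by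
        rw [hρ]
        field_simp
      rw [h10]
      have h11 : ρ ^ 2 ≤ 4 * ε := by
        calc ρ ^ 2 = ρ * ρ := by ring
          _ ≤ 2 * (2 * ε) := by gcongr
          _ = _ := by ring
      gcongr
    calc |L| ≤ 2 * ε * (V * |R|) + 4 * ε * (V * |R|) := by linarith
      _ = _ := by ring
  · rw [abs_div, abs_mul, abs_of_pos hV, abs_pow, div_le_iff₀ (by positivity)]
    have h8 : D * |R| ^ 2 * V ≤ 2 * ε * |R| ^ 2 := by
      calc D * |R| ^ 2 * V = (D * V) * |R| ^ 2 := by ring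
        _ ≤ (2 * ε) * |R| ^ 2 := by gcongr
        _ = _ := by ring
    have h9 : |R| ^ 3 / V ^ 3 * V ≤ 2 * ε * |R| ^ 2 := by
      have h10 : |R| ^ 3 / V ^ 3 * V = ρ * |R| ^ 2 := by
        rw [hρ]
        field_simp
      rw [h10]
      gcongr
    calc |L| * V ≤ (D * |R| ^ 2 + |R| ^ 3 / V ^ 3) * V := by gcongr
      _ = D * |R| ^ 2 * V + |R| ^ 3 / V ^ 3 * V := by ring
      _ ≤ 2 * ε * |R| ^ 2 + 2 * ε * |R| ^ 2 := by linarith
      _ = _ := by ring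

end

end Pool.Agent.Zk43.HS
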