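import Mathlib
import Pool.Agent.Zk43.HS.Main

/-!
# Integral points of Mordell curves with abscissa near an `S`-unit: the end of the proof
-/

set_option autoImplicit false

open Finset Filter Topology

namespace Pool.Agent.Zk43.HS

variable {S : Finset ℕ} {a h : ℤ} {k₁ k₂ : ℕ} {B θ δ : ℝ} {p : Pt}

lemma alg_MM (a h : ℤ) (k₁ k₂ : ℕ) (i j : Fin 4) : IsAlgebraic ℚ (MM h k₂ (√(AA a h k₁ k₂)) i j) := by
  have hs := alg_s a h k₁ k₂
  have hq : IsAlgebraic ℚ ((h : ℝ) * k₂) := by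
    have := alg_q (h * k₂)
    push_cast at this
    exact this
  have h38 : IsAlgebraic ℚ (-(3 / 8) : ℝ) := by
    have := alg_q (-(3 / 8))
    push_cast at this
    exact this
  have h32 : IsAlgebraic ℚ (-(3 / 2) : ℝ) := by
    have := alg_q (-(3 / 2))
    push_cast at this
    exact this
  fin_cases i <;> fin_cases j
  · exact isAlgebraic_one
  · exact isAlgebraic_zero
  · exact isAlgebraic_zero
  · exact isAlgebraic_zero
  · exact isAlgebraic_zero
  · exact isAlgebraic_one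
  · exact isAlgebraic_zero
  · exact isAlgebraic_zero
  · exact isAlgebraic_zero
  · exact isAlgebraic_zero
  · exact isAlgebraic_one
  · exact isAlgebraic_zero
  · show IsAlgebraic ℚ (-(3 / 8) / (√(AA a h k₁ k₂) * (h * k₂) ^ 2))
    rw [div_eq_mul_inv]
    exact h38.mul (hs.mul (hq.pow 2)).inv
  · show IsAlgebraic ℚ (-(3 / 2) * √(AA a h k₁ k₂) / (h * k₂))
    rw [div_eq_mul_inv]
    exact (h32.mul hs).mul hq.inv
  · exact (hs.pow 3).neg
  · exact isAlgebraic_one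

/-- **the main case** -/
theorem caseMain (f : Fix a h k₁ k₂ B θ δ) :
    ∃ t : ℝ, ∀ p : Pt, Ok S a h k₁ k₂ B θ δ p → p.r ≠ 0 → p.T < t := by
  by_contra hcon
  push Not at hcon
  obtain ⟨t₁, ht₁⟩ := caseR (S := S) f
  have hKK := KK_pos f
  have hB0 := f.B0
  have hδ := f.δ0
  set K := KK a h k₁ k₂ B with hK
  set 𝒜 : Set Pt := {p | Ok S a h k₁ k₂ B θ δ p ∧ p.r ≠ 0 ∧ t₁ ≤ p.T ∧ 2 * Real.log 4 / δ ≤ p.T} with h𝒜
  have hunb : ∀ t : ℝ, ∃ p ∈ 𝒜, t ≤ p.T := by
    intro t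
    obtain ⟨p, h1, h2, h3⟩ := hcon (max t (max t₁ (2 * Real.log 4 / δ)))
    exact ⟨p, ⟨h1, h2, ((le_max_left _ _).trans (le_max_right _ _)).trans h3,
      ((le_max_right _ _).trans (le_max_right _ _)).trans h3⟩, (le_max_left _ _).trans h3⟩
  have hApos : 0 < AA a h k₁ k₂ := by
    obtain ⟨p, h1, -⟩ := hunb 0
    exact h1.1.Apos f
  have hl4 : 0 ≤ Real.log 4 := Real.log_nonneg (by norm_num)
  have hl4' : Real.log 4 ≤ 3 := by
    have : Real.log 4 ≤ 4 - 1 := Real.log_le_sub_one_of_pos (by norm_num)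
    linarith
  obtain ⟨s, hs⟩ : ∃ s, s = √(AA a h k₁ k₂) := ⟨_, rfl⟩
  have hs0 : 0 < s := by rw [hs]; exact Real.sqrt_pos.2 hApos
  have hk0 : (k₂ : ℝ) ≠ 0 := by exact_mod_cast f.k2
  have hh0 : (h : ℝ) ≠ 0 := by exact_mod_cast f.h0
  obtain ⟨c, hc0, hc⟩ := seqSub (n := 4) (by norm_num) S (MM h k₂ (√(AA a h k₁ k₂)))
    (alg_MM a h k₁ k₂)
    (by
      intro i j hij
      fin_cases i <;> fin_cases j <;> first | rfl | (exfalso; revert hij; decide))
    (by
      intro i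
      fin_cases i <;> exact one_ne_zero)
    𝒜 Pt.T XX DD (EE δ) (8 * K + 3 + δ) (δ / 2) (by linarith) (by linarith) hunb
    (fun p hp => hp.1.T1 f)
    (fun p hp h0 => by
      have h1 := congrFun h0 2
      have h3 : (p.w₁ : ℤ) ≠ 0 := by exact_mod_cast hp.1.s1.1
      exact pow_ne_zero 4 h3 h1)
    (fun p hp l => by
      have q1 := hp.1.s1
      have q2 := hp.1.s2
      have q3 := hp.1.sn
      fin_cases l
      · exact q3.pow 2
      · exact (q1.pow 2).mul q3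
      · exact q1.pow 4
      · exact q1.mul (q2.pow 3))
    (fun p hp l => by
      have hT := hp.1.T1 f
      obtain ⟨h1, h2⟩ := hp.1.lw1 f
      obtain ⟨h3, h4⟩ := hp.1.lw2 f
      obtain ⟨h5, h6, h7⟩ := hp.1.lnr f hp.2.1
      have g1 := hp.1.w1 f
      have g2 := hp.1.w2 f
      have g3 := hp.1.n0 f
      have g3' : (0 : ℝ) < p.n := by linarith
      have hKT : 0 ≤ K * p.T := by nlinarith
      fin_cases l
      · show (((p.n ^ 2 : ℕ)) : ℝ) ≤ _
        push_cast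
        rw [← Real.log_le_iff_le_exp (by positivity), Real.log_pow]
        push_cast
        nlinarith
      · show (((p.w₁ ^ 2 * p.n : ℕ)) : ℝ) ≤ _
        push_cast
        rw [← Real.log_le_iff_le_exp (by positivity), Real.log_mul (by positivity) (by positivity), Real.log_pow]
        push_cast
        nlinarith
      · show (((p.w₁ ^ 4 : ℕ)) : ℝ) ≤ _
        push_cast
        rw [← Real.log_le_iff_le_exp (by positivity), Real.log_pow]
        push_cast
        nlinarith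
      · show (((p.w₁ * p.w₂ ^ 3 : ℕ)) : ℝ) ≤ _
        push_cast
        rw [← Real.log_le_iff_le_exp (by positivity), Real.log_mul (by positivity) (by positivity), Real.log_pow]
        push_cast
        nlinarith)
    (fun p hp l => by
      fin_cases l
      · show (((p.n ^ 2 : ℕ)) : ℤ) ∣ (p.n : ℤ) ^ 2 * p.r ^ 2
        push_cast
        exact Dvd.intro _ rfl
      · show (((p.w₁ ^ 2 * p.n : ℕ)) : ℤ) ∣ (p.w₁ : ℤ) ^ 2 * p.n * p.r
        push_cast
        exact Dvd.intro _ rfl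
      · show (((p.w₁ ^ 4 : ℕ)) : ℤ) ∣ (p.w₁ : ℤ) ^ 4
        push_cast
        exact dvd_rfl
      · show (((p.w₁ * p.w₂ ^ 3 : ℕ)) : ℤ) ∣ (p.w₁ : ℤ) * (p.w₂ : ℤ) ^ 3 * p.y
        push_cast
        exact Dvd.intro _ rfl)
    (fun p hp l => by
      have hT := hp.1.T1 f
      obtain ⟨h1, h2⟩ := hp.1.lw1 f
      obtain ⟨h3, h4⟩ := hp.1.lw2 f
      obtain ⟨h5, h6, h7⟩ := hp.1.lnr f hp.2.1
      have hδT : 0 ≤ δ * p.T := by nlinarith
      have hKT : 0 ≤ K * p.T := by nlinarith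
      have e8 : (8 * K + 3 + δ) * p.T = 8 * (K * p.T) + 3 * p.T + δ * p.T := by ring
      rw [e8, abs_le]
      fin_cases l
      · show _ ≤ 2 * Real.log p.n + 2 * Real.log |(p.r : ℝ)| ∧
          2 * Real.log p.n + 2 * Real.log |(p.r : ℝ)| ≤ _
        constructor <;> linarith
      · show _ ≤ 2 * Real.log p.w₁ + Real.log p.n + Real.log |(p.r : ℝ)| ∧
          2 * Real.log p.w₁ + Real.log p.n + Real.log |(p.r : ℝ)| ≤ _
        constructor <;> linarith
      · show _ ≤ 4 * Real.log p.w₁ ∧ 4 * Real.log p.w₁ ≤ _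
        constructor <;> linarith
      · show _ ≤ Real.log p.w₁ + 3 * Real.log p.w₂ + (Real.log 4 - δ * p.T - 3 * Real.log |(p.r : ℝ)|) ∧
          Real.log p.w₁ + 3 * Real.log p.w₂ + (Real.log 4 - δ * p.T - 3 * Real.log |(p.r : ℝ)|) ≤ _
        constructor <;> linarith)
    (fun p hp l => by
      have g1 := hp.1.w1 f
      have g2 := hp.1.w2 f
      have g3 := hp.1.n0 f
      have g3' : (0 : ℝ) < p.n := by linarith
      have g4 : (0 : ℝ) < |(p.r : ℝ)| := abs_pos.2 (by exact_mod_cast hp.2.1)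
      fin_cases l
      · show |∑ j, MM h k₂ (√(AA a h k₁ k₂)) 0 j * (XX p j : ℝ)| ≤
          Real.exp (2 * Real.log p.n + 2 * Real.log |(p.r : ℝ)|)
        have h1 : ∑ j, MM h k₂ (√(AA a h k₁ k₂)) 0 j * (XX p j : ℝ) = (p.n : ℝ) ^ 2 * (p.r : ℝ) ^ 2 := by
          rw [Fin.sum_univ_four]
          show (1 : ℝ) * (((p.n : ℤ) ^ 2 * p.r ^ 2 : ℤ) : ℝ) + 0 * _ + 0 * _ + 0 * _ = _
          push_cast
          ring
        rw [h1, abs_of_nonneg (by positivity)]
        rw [← Real.log_le_iff_le_exp (by have : (0 : ℝ) < (p.r : ℝ) ^ 2 := by rw [← sq_abs]; positivity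
                                         positivity),
          Real.log_mul (by positivity) (by rw [← sq_abs]; positivity), Real.log_pow, ← sq_abs (p.r : ℝ), Real.log_pow]
        push_cast
        exact le_rfl
      · show |∑ j, MM h k₂ (√(AA a h k₁ k₂)) 1 j * (XX p j : ℝ)| ≤
          Real.exp (2 * Real.log p.w₁ + Real.log p.n + Real.log |(p.r : ℝ)|)
        have h1 : ∑ j, MM h k₂ (√(AA a h k₁ k₂)) 1 j * (XX p j : ℝ) = (p.w₁ : ℝ) ^ 2 * p.n * p.r := by
          rw [Fin.sum_univ_four]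
          show (0 : ℝ) * _ + 1 * (((p.w₁ : ℤ) ^ 2 * p.n * p.r : ℤ) : ℝ) + 0 * _ + 0 * _ = _
          push_cast
          ring
        rw [h1, abs_mul, abs_of_nonneg (by positivity),
          ← Real.log_le_iff_le_exp (by positivity), Real.log_mul (by positivity) (by positivity),
          Real.log_mul (by positivity) (by positivity), Real.log_pow]
        push_cast
        exact le_rfl
      · show |∑ j, MM h k₂ (√(AA a h k₁ k₂)) 2 j * (XX p j : ℝ)| ≤ Real.exp (4 * Real.log p.w₁)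
        have h1 : ∑ j, MM h k₂ (√(AA a h k₁ k₂)) 2 j * (XX p j : ℝ) = (p.w₁ : ℝ) ^ 4 := by
          rw [Fin.sum_univ_four]
          show (0 : ℝ) * _ + 0 * _ + 1 * (((p.w₁ : ℤ) ^ 4 : ℤ) : ℝ) + 0 * _ = _
          push_cast
          ring
        rw [h1, abs_of_nonneg (by positivity), ← Real.log_le_iff_le_exp (by positivity), Real.log_pow]
        push_cast
        exact le_rfl
      · show |∑ j, MM h k₂ (√(AA a h k₁ k₂)) 3 j * (XX p j : ℝ)| ≤
          Real.exp (Real.log p.w₁ + 3 * Real.log p.w₂ + (Real.log 4 - δ * p.T - 3 * Real.log |(p.r : ℝ)|))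
        rw [hp.1.form f, abs_mul, abs_of_pos (by positivity : 0 < (p.w₁ : ℝ) * (p.w₂ : ℝ) ^ 3), Real.exp_add]
        have h1 : Real.exp (Real.log p.w₁ + 3 * Real.log p.w₂) = (p.w₁ : ℝ) * (p.w₂ : ℝ) ^ 3 := by
          rw [Real.exp_add, Real.exp_log g1, mul_comm 3, Real.exp_mul, Real.exp_log g2]
          congr 1
          norm_cast
        rw [h1]
        refine mul_le_mul_of_nonneg_left ?_ (by positivity)
        have h2 := hp.1.Lr f hp.2.1
        have h3 : Real.exp (3 * Real.log |(p.r : ℝ)|) = |(p.r : ℝ)| ^ 3 := by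
          rw [show (3 : ℝ) * Real.log |(p.r : ℝ)| = ((3 : ℕ) : ℝ) * Real.log |(p.r : ℝ)| by norm_num,
            Real.exp_nat_mul, Real.exp_log g4]
        rw [Real.exp_sub, Real.exp_sub, Real.exp_log (by norm_num), h3, le_div_iff₀ (by positivity)]
        rw [Real.exp_neg, ← div_eq_mul_inv] at h2
        exact h2)
    (fun p hp => by
      have g1 := hp.1.w1 f
      have g2 := hp.1.w2 f
      have g3 := hp.1.n0 f
      have g3' : (0 : ℝ) < p.n := by linarith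
      have g5 := hp.2.2.2
      rw [div_le_iff₀ hδ] at g5
      rw [Fin.sum_univ_four, Fin.sum_univ_four]
      show 2 * Real.log p.n + 2 * Real.log |(p.r : ℝ)| +
        (2 * Real.log p.w₁ + Real.log p.n + Real.log |(p.r : ℝ)|) + 4 * Real.log p.w₁ +
        (Real.log p.w₁ + 3 * Real.log p.w₂ + (Real.log 4 - δ * p.T - 3 * Real.log |(p.r : ℝ)|)) + δ / 2 * p.T ≤
        Real.log ((p.n ^ 2 : ℕ) : ℝ) + Real.log ((p.w₁ ^ 2 * p.n : ℕ) : ℝ) + Real.log ((p.w₁ ^ 4 : ℕ) : ℝ) +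
        Real.log ((p.w₁ * p.w₂ ^ 3 : ℕ) : ℝ)
      push_cast
      rw [Real.log_pow, Real.log_mul (by positivity) (by positivity), Real.log_pow, Real.log_pow,
        Real.log_mul (by positivity) (by positivity), Real.log_pow]
      push_cast
      linarith)
  -- the relation in terms of `V`, `R`, `L`
  obtain ⟨α, hα⟩ : ∃ α : ℝ, α = c 0 * s * (h * k₂) ^ 2 := ⟨_, rfl⟩
  obtain ⟨β, hβ⟩ : ∃ β : ℝ, β = c 1 * (h * k₂) / s := ⟨_, rfl⟩
  obtain ⟨l, hl⟩ : ∃ l : ℝ, l = c 2 / s ^ 3 := ⟨_, rfl⟩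
  obtain ⟨μ, hμ⟩ : ∃ μ : ℝ, μ = c 3 := ⟨_, rfl⟩
  have hrel : ∀ p ∈ 𝒜, ∑ l, c l * XX p l = 0 →
      (l + μ) * p.V a h k₁ k₂ ^ 3 + (β + 3 / 2 * μ) * (p.V a h k₁ k₂ * p.R h k₂) +
        (α + 3 / 8 * μ) * (p.R h k₂ ^ 2 / p.V a h k₁ k₂) + μ * p.L a h k₁ k₂ = 0 := by
    intro p hp h0
    have g1 := hp.1.w1 f
    have g2 := hp.1.w2 f
    rw [Fin.sum_univ_four] at h0
    have h1 : (c 0 : ℝ) * ((p.n : ℝ) ^ 2 * (p.r : ℝ) ^ 2) + c 1 * ((p.w₁ : ℝ) ^ 2 * p.n * p.r) +
        c 2 * (p.w₁ : ℝ) ^ 4 + c 3 * ((p.w₁ : ℝ) * (p.w₂ : ℝ) ^ 3 * p.y) = 0 := by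
      have h2 : c 0 * ((p.n : ℤ) ^ 2 * p.r ^ 2) + c 1 * ((p.w₁ : ℤ) ^ 2 * p.n * p.r) +
        c 2 * (p.w₁ : ℤ) ^ 4 + c 3 * ((p.w₁ : ℤ) * (p.w₂ : ℤ) ^ 3 * p.y) = 0 := h0
      exact_mod_cast h2
    have h3 : ((l + μ) * p.V a h k₁ k₂ ^ 3 + (β + 3 / 2 * μ) * (p.V a h k₁ k₂ * p.R h k₂) +
        (α + 3 / 8 * μ) * (p.R h k₂ ^ 2 / p.V a h k₁ k₂) + μ * p.L a h k₁ k₂) * ((p.w₁ : ℝ) * (p.w₂ : ℝ) ^ 3) =
        (c 0 : ℝ) * ((p.n : ℝ) ^ 2 * (p.r : ℝ) ^ 2) + c 1 * ((p.w₁ : ℝ) ^ 2 * p.n * p.r) +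
        c 2 * (p.w₁ : ℝ) ^ 4 + c 3 * ((p.w₁ : ℝ) * (p.w₂ : ℝ) ^ 3 * p.y) := by
      unfold Pt.L Pt.V Pt.W Pt.R
      rw [← hs, hα, hβ, hl, hμ]
      field_simp
      ring
    rw [h1] at h3
    exact (mul_eq_zero.1 h3).resolve_right (by positivity)
  have hest : ∀ p ∈ 𝒜, _ := fun p hp => hp.1.est f hp.2.1 (by
    by_contra hcon'
    push Not at hcon'
    exact absurd (ht₁ p hp.1 hp.2.1 hcon') (not_lt.2 hp.2.2.1))
  have hP : l + μ = 0 := by
    refine lim0 (et_pos hδ) (C := |β + 3 / 2 * μ| * 2 + |α + 3 / 8 * μ| * 4 + |μ| * 9) fun t => ?_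
    obtain ⟨p, hp, ht, h0⟩ := hc t
    obtain ⟨e0, e1, e2, e3, e4⟩ := hest p hp
    have hV := hp.1.Vpos f
    have h1 := hrel p hp h0
    set V := p.V a h k₁ k₂
    set R := p.R h k₂
    set L := p.L a h k₁ k₂
    refine ⟨p.T, ht, (β + 3 / 2 * μ) * (R / V ^ 2) + (α + 3 / 8 * μ) * (R / V ^ 2) ^ 2 + μ * (L / V ^ 3), ?_, ?_⟩
    · have hε1 : Real.exp (-(et δ * p.T)) ≤ 1 := by
        rw [← Real.exp_zero]
        have he3 : 0 ≤ et δ * p.T := mul_nonneg (et_pos hδ).le (by linarith [hp.1.T1 f])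
        exact Real.exp_le_exp.2 (by linarith)
      have e5 : |(R / V ^ 2) ^ 2| ≤ 4 * Real.exp (-(et δ * p.T)) := by
        rw [abs_pow]
        calc |R / V ^ 2| ^ 2 = |R / V ^ 2| * |R / V ^ 2| := sq _
          _ ≤ (2 * 1) * (2 * Real.exp (-(et δ * p.T))) := by
              apply mul_le_mul (e1.trans (by linarith)) e1 (abs_nonneg _) (by norm_num)
          _ = _ := by ring
      calc _ ≤ |(β + 3 / 2 * μ) * (R / V ^ 2)| + |(α + 3 / 8 * μ) * (R / V ^ 2) ^ 2| + |μ * (L / V ^ 3)| :=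
            abs_add_three _ _ _
        _ = |β + 3 / 2 * μ| * |R / V ^ 2| + |α + 3 / 8 * μ| * |(R / V ^ 2) ^ 2| + |μ| * |L / V ^ 3| := by
            rw [abs_mul, abs_mul, abs_mul]
        _ ≤ |β + 3 / 2 * μ| * (2 * Real.exp (-(et δ * p.T))) + |α + 3 / 8 * μ| * (4 * Real.exp (-(et δ * p.T))) +
            |μ| * (9 * Real.exp (-(et δ * p.T))) := by gcongr
        _ = _ := by ring
    · have h2 : (l + μ + ((β + 3 / 2 * μ) * (R / V ^ 2) + (α + 3 / 8 * μ) * (R / V ^ 2) ^ 2 + μ * (L / V ^ 3))) *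
          V ^ 3 = 0 := by
        rw [← h1]
        field_simp
        ring
      exact (mul_eq_zero.1 h2).resolve_right (pow_pos hV 3).ne'
  have hQ : β + 3 / 2 * μ = 0 := by
    refine lim0 (et_pos hδ) (C := |α + 3 / 8 * μ| * 2 + |μ| * 6) fun t => ?_
    obtain ⟨p, hp, ht, h0⟩ := hc t
    obtain ⟨e0, e1, e2, e3, e4⟩ := hest p hp
    have hV := hp.1.Vpos f
    have h1 := hrel p hp h0
    set V := p.V a h k₁ k₂
    set R := p.R h k₂
    set L := p.L a h k₁ k₂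
    have hR : R ≠ 0 := abs_pos.1 e0
    rw [hP, zero_mul, zero_add] at h1
    refine ⟨p.T, ht, (α + 3 / 8 * μ) * (R / V ^ 2) + μ * (L / (V * R)), ?_, ?_⟩
    · calc _ ≤ |(α + 3 / 8 * μ) * (R / V ^ 2)| + |μ * (L / (V * R))| := abs_add_le _ _
        _ = |α + 3 / 8 * μ| * |R / V ^ 2| + |μ| * |L / (V * R)| := by
            rw [abs_mul, abs_mul]
        _ ≤ |α + 3 / 8 * μ| * (2 * Real.exp (-(et δ * p.T))) + |μ| * (6 * Real.exp (-(et δ * p.T))) := by gcongr
        _ = _ := by ring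
    · have h2 : (β + 3 / 2 * μ + ((α + 3 / 8 * μ) * (R / V ^ 2) + μ * (L / (V * R)))) * (V * R) = 0 := by
        rw [← h1]
        field_simp
        ring
      exact (mul_eq_zero.1 h2).resolve_right (mul_ne_zero hV.ne' hR)
  have hZ : α + 3 / 8 * μ = 0 := by
    refine lim0 (et_pos hδ) (C := |μ| * 4) fun t => ?_
    obtain ⟨p, hp, ht, h0⟩ := hc t
    obtain ⟨e0, e1, e2, e3, e4⟩ := hest p hp
    have hV := hp.1.Vpos f
    have h1 := hrel p hp h0
    set V := p.V a h k₁ k₂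
    set R := p.R h k₂
    set L := p.L a h k₁ k₂
    have hR : R ≠ 0 := abs_pos.1 e0
    rw [hP, hQ, zero_mul, zero_add, zero_mul, zero_add] at h1
    refine ⟨p.T, ht, μ * (L * V / R ^ 2), ?_, ?_⟩
    · rw [abs_mul]
      calc _ ≤ |μ| * (4 * Real.exp (-(et δ * p.T))) := by gcongr
        _ = _ := by ring
    · have h2 : (α + 3 / 8 * μ + μ * (L * V / R ^ 2)) * (R ^ 2 / V) = 0 := by
        rw [← h1]
        field_simp
      exact (mul_eq_zero.1 h2).resolve_right (div_ne_zero (pow_ne_zero 2 hR) hV.ne')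
  have hμ0 : μ ≠ 0 := by
    intro h0
    rw [h0] at hP hQ hZ
    have g0 : (c 0 : ℝ) = 0 := by
      have : α = 0 := by linarith
      rw [hα] at this
      have h2 := (mul_eq_zero.1 this).resolve_right (pow_ne_zero 2 (mul_ne_zero hh0 hk0))
      exact (mul_eq_zero.1 h2).resolve_right hs0.ne'
    have g1 : (c 1 : ℝ) = 0 := by
      have : β = 0 := by linarith
      rw [hβ, div_eq_zero_iff] at this
      rcases this with h2 | h2
      · exact (mul_eq_zero.1 h2).resolve_right (mul_ne_zero hh0 hk0)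
      · exact absurd h2 hs0.ne'
    have g2 : (c 2 : ℝ) = 0 := by
      have : l = 0 := by linarith
      rw [hl, div_eq_zero_iff] at this
      rcases this with h2 | h2
      · exact h2
      · exact absurd h2 (pow_ne_zero 3 hs0.ne')
    have g3 : (c 3 : ℝ) = 0 := by rw [← hμ, h0]
    apply hc0
    funext i
    fin_cases i
    · exact_mod_cast g0
    · exact_mod_cast g1
    · exact_mod_cast g2
    · exact_mod_cast g3
  -- `s` is rational
  obtain ⟨σ, hσ⟩ : ∃ σ : ℚ, (σ : ℝ) = s := by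
    have h1 : s ^ 3 * μ = -c 2 := by
      have : l = -μ := by linarith
      rw [hl, div_eq_iff (pow_ne_zero 3 hs0.ne')] at this
      linarith
    have h2 : s ^ 2 = AA a h k₁ k₂ := by rw [hs, Real.sq_sqrt hApos.le]
    refine ⟨(-c 2) / c 3 / ((a : ℚ) * k₁ / (h * k₂)), ?_⟩
    push_cast
    have h3 : ((a : ℝ) * k₁ / (h * k₂)) = s ^ 2 := by rw [h2]; rfl
    rw [h3, ← hμ]
    rw [div_div, div_eq_iff (by positivity)]
    linarith
  -- the contradiction
  obtain ⟨p, hp, ht, h0⟩ := hc (max (Real.log 144 / δ + 1) (4 / et δ))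
  obtain ⟨e0, e1, e2, e3, e4⟩ := hest p hp
  have hV := hp.1.Vpos f
  have hT := hp.1.T1 f
  have hL0 : p.L a h k₁ k₂ = 0 := by
    have h1 := hrel p hp h0
    rw [hP, hQ, hZ, zero_mul, zero_mul, zero_mul, zero_add, zero_add, zero_add] at h1
    exact (mul_eq_zero.1 h1).resolve_left hμ0
  have hyy : (p.y : ℝ) = p.V a h k₁ k₂ ^ 3 + 3 / 2 * p.V a h k₁ k₂ * p.R h k₂ +
      3 / 8 * p.R h k₂ ^ 2 / p.V a h k₁ k₂ := by
    unfold Pt.L at hL0
    linarith
  have hxx : (p.x : ℝ) = p.V a h k₁ k₂ ^ 2 + p.R h k₂ := by linarith [hp.1.Vsq f]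
  obtain ⟨i1, i2⟩ := exceptional hV hxx hyy
  set V := p.V a h k₁ k₂ with hVd
  set R := p.R h k₂ with hRd
  obtain ⟨v, hv⟩ : ∃ v : ℚ, (v : ℝ) = V := by
    refine ⟨σ * (p.w₁ / p.w₂), ?_⟩
    rw [hVd]
    unfold Pt.V Pt.W
    rw [← hs, ← hσ]
    push_cast
    rfl
  have hR0 : R ≠ 0 := abs_pos.1 e0
  have hxR : (p.x : ℝ) - V ^ 2 = R := by linarith
  have hVR : V ≤ 3 * R ^ 2 := by
    have h5 := integral (V := v) (x := p.x) (y := p.y) (by
      have : (0 : ℝ) < v := by rw [hv]; exact hV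
      exact_mod_cast this) (by
      intro h6
      have h7 : ((p.x : ℝ) - (v : ℝ) ^ 2) = 0 := by exact_mod_cast h6
      rw [hv, hxR] at h7
      exact hR0 h7) (by
      rw [← hv] at i2
      exact_mod_cast i2)
    have h6 : (v : ℝ) ≤ 3 * ((p.x : ℝ) - (v : ℝ) ^ 2) ^ 2 := by exact_mod_cast h5
    rw [hv, hxR] at h6
    exact h6
  -- the size of `d`
  have hd1 : |(p.y : ℝ) ^ 2 - (p.x : ℝ) ^ 3| ≥ |R| ^ 3 / 16 := by
    rw [i1, abs_mul, abs_pow]
    have h5 : (1 : ℝ) / 16 ≤ |1 / 8 + 9 / 64 * (R / V ^ 2)| := by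
      have h6 : |R / V ^ 2| ≤ 4 / 9 := by
        refine e1.trans ?_
        have h7 : Real.exp (-(et δ * p.T)) ≤ 2 / 9 := by
          have h8 : (9 : ℝ) / 2 ≤ Real.exp (et δ * p.T) := by
            have := Real.add_one_le_exp (et δ * p.T)
            have h9 : 4 / et δ ≤ p.T := (le_max_right _ _).trans ht
            rw [div_le_iff₀ (et_pos hδ)] at h9
            linarith
          rw [Real.exp_neg, inv_le_comm₀ (Real.exp_pos _) (by norm_num)]
          linarith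
        linarith
      have h8 := abs_le.1 h6
      rw [le_abs]
      left
      linarith [h8.1]
    nlinarith [pow_pos e0 3]
  have hd2 : Real.exp (3 / 4 * p.T) ≤ 9 * |R| ^ 3 := by
    -- `R ^ 6 ≥ (V / 3) ^ 3 ≥ x ^ (3 / 2) / 81`
    rw [← pow_le_pow_iff_left₀ (Real.exp_pos _).le (by positivity) (two_ne_zero)]
    have h5 : Real.exp (3 / 4 * p.T) ^ 2 = Real.exp (3 / 2 * p.T) := by
      rw [← Real.exp_nat_mul]
      congr 1
      push_cast
      ring
    have h6 : V ^ 3 ≤ 27 * |R| ^ 6 := by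
      calc V ^ 3 ≤ (3 * R ^ 2) ^ 3 := pow_le_pow_left₀ hV.le hVR 3
        _ = 27 * |R| ^ 6 := by
          rw [show |R| ^ 6 = (|R| ^ 2) ^ 3 by ring, sq_abs]
          ring
    have h7 : Real.exp (3 / 2 * p.T) ≤ 3 * V ^ 3 := by
      rw [← pow_le_pow_iff_left₀ (Real.exp_pos _).le (by positivity) (two_ne_zero)]
      have h8 : Real.exp (3 / 2 * p.T) ^ 2 = (p.x : ℝ) ^ 3 := by
        rw [← hp.1.expT f, ← Real.exp_nat_mul, ← Real.exp_nat_mul]
        congr 1
        push_cast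
        ring
      have h9 : (p.x : ℝ) ^ 3 / 8 ≤ (V ^ 3) ^ 2 := by
        calc (p.x : ℝ) ^ 3 / 8 = ((p.x : ℝ) / 2) ^ 3 := by ring
          _ ≤ (V ^ 2) ^ 3 := pow_le_pow_left₀ (by linarith [hp.1.x0 f]) (hp.1.V1 f) 3
          _ = _ := by ring
      rw [h8, mul_pow]
      have : 0 ≤ (p.x : ℝ) ^ 3 := by have := hp.1.x0 f; positivity
      linarith
    rw [h5]
    calc Real.exp (3 / 2 * p.T) ≤ 3 * V ^ 3 := h7
      _ ≤ 3 * (27 * |R| ^ 6) := by linarith
      _ = (9 * |R| ^ 3) ^ 2 := by ring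
  rcases hp.1.c3 with hθ | hR4
  · have hd3 : |(p.y : ℝ) ^ 2 - (p.x : ℝ) ^ 3| ≤ Real.exp (3 / 4 * p.T) * Real.exp (-(δ * p.T)) := by
      refine hp.1.sm.trans ?_
      rw [hp.1.rpow f, ← Real.exp_add]
      refine Real.exp_le_exp.2 ?_
      nlinarith
    have h5 : Real.exp (3 / 4 * p.T) ≤ 144 * (Real.exp (3 / 4 * p.T) * Real.exp (-(δ * p.T))) := by
      linarith
    have h6 : Real.exp (δ * p.T) ≤ 144 := by
      have h7 : 0 < Real.exp (3 / 4 * p.T) := Real.exp_pos _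
      have h8 : 1 ≤ 144 * Real.exp (-(δ * p.T)) := by
        by_contra hcon'
        push Not at hcon'
        nlinarith
      rw [Real.exp_neg, ← div_eq_mul_inv, le_div_iff₀ (Real.exp_pos _)] at h8
      linarith
    have h7 : δ * p.T ≤ Real.log 144 := by
      rw [Real.le_log_iff_exp_le (by norm_num)]
      exact h6
    have h8 := (le_max_left _ _).trans ht
    have h9 : Real.log 144 / δ < p.T := by linarith
    rw [div_lt_iff₀ hδ] at h9
    linarith
  · -- `V ≤ 3 R ^ 2` is impossible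
    have h5 : Real.exp (1 / 2 * p.T) ≤ 2 * V := by
      rw [← pow_le_pow_iff_left₀ (Real.exp_pos _).le (by positivity) (two_ne_zero)]
      have h8 : Real.exp (1 / 2 * p.T) ^ 2 = (p.x : ℝ) := by
        rw [← hp.1.expT f, ← Real.exp_nat_mul]
        congr 1
        push_cast
        ring
      have h9 := hp.1.V1 f
      have h10 := hp.1.x0 f
      rw [h8]
      nlinarith
    have h6 : R ^ 2 ≤ Real.exp (1 / 2 * p.T) * Real.exp (-(2 * δ * p.T)) := by
      calc R ^ 2 = |R| ^ 2 := (sq_abs R).symm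
        _ ≤ ((p.x : ℝ) ^ (1 / 4 - δ)) ^ 2 := pow_le_pow_left₀ (abs_nonneg _) hR4 2
        _ = _ := by
          rw [hp.1.rpow f, ← Real.exp_nat_mul, ← Real.exp_add]
          congr 1
          push_cast
          ring
    have h7 : Real.exp (1 / 2 * p.T) ≤ 6 * (Real.exp (1 / 2 * p.T) * Real.exp (-(2 * δ * p.T))) := by
      linarith
    have h8 : Real.exp (2 * δ * p.T) ≤ 6 := by
      have h7' : 0 < Real.exp (1 / 2 * p.T) := Real.exp_pos _
      have h8 : 1 ≤ 6 * Real.exp (-(2 * δ * p.T)) := by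
        by_contra hcon'
        push Not at hcon'
        nlinarith
      rw [Real.exp_neg, ← div_eq_mul_inv, le_div_iff₀ (Real.exp_pos _)] at h8
      linarith
    have h9 : δ * p.T ≤ Real.log 144 := by
      rw [Real.le_log_iff_exp_le (by norm_num)]
      have h10 : 0 ≤ δ * p.T := mul_nonneg hδ.le (by linarith)
      calc Real.exp (δ * p.T) ≤ Real.exp (2 * δ * p.T) := Real.exp_le_exp.2 (by linarith)
        _ ≤ 144 := by linarith
    have h10 := (le_max_left _ _).trans ht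
    have h11 : Real.log 144 / δ < p.T := by linarith
    rw [div_lt_iff₀ hδ] at h11
    linarith

end Pool.Agent.Zk43.HS
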