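import Mathlib
import Pool.Agent.Zk43.HS.Final

/-!
# Integral points of Mordell curves with abscissa near an `S`-unit: the theorem
-/

set_option autoImplicit false

open Finset Filter Topology

namespace Pool.Agent.Zk43.HS

/-- the squarefree `S`-smooth numbers -/
def SF (S : Finset ℕ) : Finset ℕ := S.powerset.image fun s => ∏ p ∈ s, p

lemma mem_SF {S : Finset ℕ} {k : ℕ} (hk : Smooth S k) (hs : Squarefree k) : k ∈ SF S := by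
  unfold SF
  rw [mem_image]
  exact ⟨k.primeFactors, mem_powerset.2 hk.2, Nat.prod_primeFactors_of_squarefree hs⟩

lemma sq_decomp {S : Finset ℕ} {u : ℕ} (hu : Smooth S u) :
    ∃ k w : ℕ, k ∈ SF S ∧ k ≠ 0 ∧ Smooth S w ∧ u = k * w ^ 2 ∧ w ≤ u := by
  obtain ⟨k, w, hk, hw, h1, h2⟩ := Nat.sq_mul_squarefree_of_pos (Nat.pos_of_ne_zero hu.1)
  refine ⟨k, w, ?_, hk.ne', ?_, ?_, ?_⟩
  · exact mem_SF (hu.of_dvd (Dvd.intro_left _ h1)) h2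
  · exact hu.of_dvd ((Dvd.intro_left _ (by rw [← h1]; ring : (w * k) * w = u)))
  · rw [← h1]; ring
  · rw [← h1]
    calc w ≤ w ^ 2 := Nat.le_self_pow (by norm_num) w
      _ ≤ w ^ 2 * k := Nat.le_mul_of_pos_right _ hk

/-- the bound for all `Ok` points with parameters in a finite set -/
lemma bounded (S : Finset ℕ) (H : ℕ) (B θ δ : ℝ) (hB : 0 ≤ B) (hθ : 0 ≤ θ) (hδ : 0 < δ) :
    ∃ t : ℝ, 0 < t ∧ ∀ (a h : ℤ) (k₁ k₂ : ℕ) (p : Pt), a ≠ 0 → h ≠ 0 → k₁ ≠ 0 → k₂ ≠ 0 →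
      |a| ≤ H → |h| ≤ H → k₁ ∈ SF S → k₂ ∈ SF S → Ok S a h k₁ k₂ B θ δ p → p.T < t := by
  classical
  have hex : ∀ q : (ℤ × ℤ) × ℕ × ℕ, ∃ t : ℝ, ∀ p : Pt, q.1.1 ≠ 0 → q.1.2 ≠ 0 → q.2.1 ≠ 0 → q.2.2 ≠ 0 →
      Ok S q.1.1 q.1.2 q.2.1 q.2.2 B θ δ p → p.T < t := by
    intro q
    by_cases hq : q.1.1 ≠ 0 ∧ q.1.2 ≠ 0 ∧ q.2.1 ≠ 0 ∧ q.2.2 ≠ 0
    · have f : Fix q.1.1 q.1.2 q.2.1 q.2.2 B θ δ := ⟨hq.1, hq.2.1, hq.2.2.1, hq.2.2.2, hB, hθ, hδ⟩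
      obtain ⟨t0, h0⟩ := case0 (S := S) f
      obtain ⟨t1, h1⟩ := caseMain (S := S) f
      refine ⟨max t0 t1, fun p _ _ _ _ hp => ?_⟩
      by_cases hr : p.r = 0
      · exact (h0 p hp hr).trans_le (le_max_left _ _)
      · exact (h1 p hp hr).trans_le (le_max_right _ _)
    · exact ⟨0, fun p g1 g2 g3 g4 _ => absurd ⟨g1, g2, g3, g4⟩ hq⟩
  choose t ht using hex
  set F : Finset ((ℤ × ℤ) × ℕ × ℕ) :=
    (Finset.Icc (-(H : ℤ)) H ×ˢ Finset.Icc (-(H : ℤ)) H) ×ˢ (SF S ×ˢ SF S) with hF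
  refine ⟨1 + ∑ q ∈ F, |t q|, by positivity, ?_⟩
  intro a h k₁ k₂ p ha hh hk1 hk2 haH hhH hm1 hm2 hp
  have h1 := ht ((a, h), (k₁, k₂)) p ha hh hk1 hk2 hp
  have h2 : ((a, h), (k₁, k₂)) ∈ F := by
    rw [hF]
    simp only [mem_product, mem_Icc]
    exact ⟨⟨abs_le.1 haH, abs_le.1 hhH⟩, hm1, hm2⟩
  have h3 : |t ((a, h), (k₁, k₂))| ≤ ∑ q ∈ F, |t q| :=
    Finset.single_le_sum (f := fun q => |t q|) (fun _ _ => abs_nonneg _) h2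
  have h4 := le_abs_self (t ((a, h), (k₁, k₂)))
  linarith

/-- the bound of a quantity `Q` by a multiple of `d` -/
lemma triv {t : ℝ} {x y : ℤ} {Q : ℝ} (hne : y ^ 2 ≠ x ^ 3)
    (hQ : Q ≤ max 1 |(x : ℝ)| ^ 2) (hmain : 4 ≤ x → Real.exp t ≤ x → Q ≤ |(y : ℝ) ^ 2 - (x : ℝ) ^ 3|) :
    Q ≤ (Real.exp (2 * t) + 16) * |(y : ℝ) ^ 2 - (x : ℝ) ^ 3| := by
  have he := Real.exp_pos (2 * t)
  have hd1 : (1 : ℝ) ≤ |(y : ℝ) ^ 2 - (x : ℝ) ^ 3| := by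
    have h1 : 1 ≤ |y ^ 2 - x ^ 3| := Int.one_le_abs (sub_ne_zero.2 hne)
    exact_mod_cast h1
  have hC1 : (1 : ℝ) ≤ Real.exp (2 * t) + 16 := by linarith
  rcases le_or_gt x (-4) with hx | hx
  · have hxr : (4 : ℝ) ≤ -(x : ℝ) := by
      have : (x : ℝ) ≤ ((-4 : ℤ) : ℝ) := by exact_mod_cast hx
      push_cast at this
      linarith
    have h1 : |(x : ℝ)| = -(x : ℝ) := abs_of_neg (by linarith)
    have h4 : (x : ℝ) ^ 2 ≤ (y : ℝ) ^ 2 - (x : ℝ) ^ 3 := by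
      have h5 : (x : ℝ) ^ 2 ≤ -(x : ℝ) ^ 3 := by nlinarith [sq_nonneg (x : ℝ)]
      have h6 := sq_nonneg (y : ℝ)
      linarith
    have h5 := le_abs_self ((y : ℝ) ^ 2 - (x : ℝ) ^ 3)
    have h6 : max 1 |(x : ℝ)| ^ 2 = (x : ℝ) ^ 2 := by
      rw [max_eq_right (by rw [h1]; linarith), sq_abs]
    rw [h6] at hQ
    calc Q ≤ |(y : ℝ) ^ 2 - (x : ℝ) ^ 3| := by linarith
      _ ≤ _ := le_mul_of_one_le_left (abs_nonneg _) hC1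
  rcases lt_or_ge x 4 with hx4 | hx4
  · have h1 : |(x : ℝ)| ≤ 4 := by
      have : |x| ≤ 4 := abs_le.2 ⟨by omega, by omega⟩
      exact_mod_cast this
    have h2 : max 1 |(x : ℝ)| ^ 2 ≤ 4 ^ 2 :=
      pow_le_pow_left₀ (by positivity) (max_le (by norm_num) h1) 2
    calc Q ≤ 16 * 1 := by linarith
      _ ≤ (Real.exp (2 * t) + 16) * |(y : ℝ) ^ 2 - (x : ℝ) ^ 3| := by
          gcongr
          linarith
  have hxr : (4 : ℝ) ≤ (x : ℝ) := by exact_mod_cast hx4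
  rcases lt_or_ge (x : ℝ) (Real.exp t) with h2 | h2
  · have h6 : max 1 |(x : ℝ)| ^ 2 = (x : ℝ) ^ 2 := by
      rw [max_eq_right (by rw [abs_of_pos (by linarith)]; linarith), sq_abs]
    rw [h6] at hQ
    have h3 : (x : ℝ) ^ 2 ≤ Real.exp (2 * t) := by
      calc (x : ℝ) ^ 2 ≤ Real.exp t ^ 2 := by gcongr
        _ = Real.exp (2 * t) := by rw [← Real.exp_nat_mul]; norm_num
    calc Q ≤ Real.exp (2 * t) * 1 := by linarith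
      _ ≤ (Real.exp (2 * t) + 16) * |(y : ℝ) ^ 2 - (x : ℝ) ^ 3| := by
          gcongr
          linarith
  · exact (hmain hx4 h2).trans (le_mul_of_one_le_left (abs_nonneg _) hC1)

lemma rpow_le_max {X c : ℝ} (hX : 0 ≤ X) (hc : c ≤ 2) : X ^ c ≤ max 1 X ^ 2 ∨ X < 1 := by
  rcases lt_or_ge X 1 with h | h
  · exact Or.inr h
  · left
    rw [max_eq_right h]
    calc X ^ c ≤ X ^ (2 : ℝ) := Real.rpow_le_rpow_of_exponent_le h hc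
      _ = X ^ 2 := by rw [show (2 : ℝ) = ((2 : ℕ) : ℝ) by norm_num, Real.rpow_natCast]

lemma int_rpow_le {x : ℤ} {c : ℝ} (hc : c ≤ 2) : |(x : ℝ)| ^ c ≤ max 1 |(x : ℝ)| ^ 2 := by
  rcases rpow_le_max (abs_nonneg (x : ℝ)) hc with h | h
  · exact h
  · have hx : x = 0 := by
      by_contra h0
      have : (1 : ℝ) ≤ |(x : ℝ)| := by
        have : 1 ≤ |x| := Int.one_le_abs h0
        exact_mod_cast this
      linarith
    rw [hx]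
    push_cast
    rw [abs_zero]
    by_cases hz : c = 0
    · rw [hz, Real.rpow_zero]; norm_num
    · rw [Real.zero_rpow hz]; norm_num

/-- the construction of an `Ok` point -/
lemma mk {S : Finset ℕ} {H : ℕ} {B θ δ : ℝ} {t : ℝ} (hδ : 0 < δ)
    (ht : ∀ (a h : ℤ) (k₁ k₂ : ℕ) (p : Pt), a ≠ 0 → h ≠ 0 → k₁ ≠ 0 → k₂ ≠ 0 →
      |a| ≤ H → |h| ≤ H → k₁ ∈ SF S → k₂ ∈ SF S → Ok S a h k₁ k₂ B θ δ p → p.T < t)
    {x y a h r : ℤ} {u₁ u₂ n : ℕ} (hne : y ^ 2 ≠ x ^ 3) (ha : a ≠ 0) (hh : h ≠ 0)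
    (haH : |a| ≤ H) (hhH : |h| ≤ H) (hu1 : Smooth S u₁) (hu2 : Smooth S u₂) (hn : Smooth S n)
    (hb1 : (u₁ : ℝ) ≤ (x : ℝ) ^ B) (hb2 : (u₂ : ℝ) ≤ (x : ℝ) ^ B)
    (heq : h * u₂ * x = a * u₁ + n * r) (hx4 : 4 ≤ x) (hxt : Real.exp t ≤ x)
    (hc1 : (n : ℝ) * (r : ℝ) ^ 2 ≤ u₂ * (x : ℝ) ^ (1 / 2 - δ)) (hc2 : |(r : ℝ)| ≤ (x : ℝ) ^ θ)
    (hsm : |(y : ℝ) ^ 2 - (x : ℝ) ^ 3| ≤ (x : ℝ) ^ (3 / 2 - 3 * θ - δ))
    (hsm2 : r ≠ 0 → (x : ℝ) ^ (-(2 * et δ)) < |(n : ℝ) * r / (h * u₂)| →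
      |(y : ℝ) ^ 2 - (x : ℝ) ^ 3| ≤ (x : ℝ) ^ (1 - δ) * ((n : ℝ) * r / (h * u₂)) ^ 2)
    (hc3 : 1 / 4 ≤ θ ∨ |(n : ℝ) * r / (h * u₂)| ≤ (x : ℝ) ^ (1 / 4 - δ)) : False := by
  obtain ⟨k₁, w₁, g1, g2, g3, g4, g5⟩ := sq_decomp hu1
  obtain ⟨k₂, w₂, f1, f2, f3, f4, f5⟩ := sq_decomp hu2
  have hxr : (4 : ℝ) ≤ (x : ℝ) := by exact_mod_cast hx4
  have hR : (⟨x, |y|, r, w₁, w₂, n⟩ : Pt).R h k₂ = (n : ℝ) * r / (h * u₂) := by
    show (n : ℝ) * r / (h * k₂ * (w₂ : ℝ) ^ 2) = _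
    rw [f4]
    push_cast
    congr 1
    ring
  have hok : Ok S a h k₁ k₂ B θ δ ⟨x, |y|, r, w₁, w₂, n⟩ := by
    constructor
    · exact g3
    · exact f3
    · exact hn
    · refine le_trans ?_ hb1
      show (w₁ : ℝ) ≤ u₁
      exact_mod_cast g5
    · refine le_trans ?_ hb2
      show (w₂ : ℝ) ≤ u₂
      exact_mod_cast f5
    · show h * (k₂ : ℤ) * (w₂ : ℤ) ^ 2 * x = a * k₁ * w₁ ^ 2 + n * r
      rw [g4, f4] at heq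
      push_cast at heq
      linarith
    · exact hx4
    · exact abs_nonneg y
    · show |y| ^ 2 ≠ x ^ 3
      rw [sq_abs]
      exact hne
    · show |((|y| : ℤ) : ℝ) ^ 2 - (x : ℝ) ^ 3| ≤ _
      rw [Int.cast_abs, sq_abs]
      exact hsm
    · show (n : ℝ) * (r : ℝ) ^ 2 ≤ k₂ * (w₂ : ℝ) ^ 2 * (x : ℝ) ^ (1 / 2 - δ)
      rw [f4] at hc1
      push_cast at hc1
      exact hc1
    · exact hc2
    · rw [hR]
      show r ≠ 0 → _ → |((|y| : ℤ) : ℝ) ^ 2 - (x : ℝ) ^ 3| ≤ _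
      rw [Int.cast_abs, sq_abs]
      exact hsm2
    · rw [hR]
      exact hc3
  have h1 := ht a h k₁ k₂ _ ha hh g2 f2 haH hhH g1 f1 hok
  have h2 : (x : ℝ) < Real.exp t := by
    have h3 : Real.log (x : ℝ) < t := h1
    exact (Real.log_lt_iff_lt_exp (by linarith)).1 h3
  linarith

/-- **Hall's inequality near `S`-units.** -/
theorem hall_windows (S : Finset ℕ) (H : ℕ) (B θ δ : ℝ) (hB : 0 ≤ B) (hθ : 1 / 6 ≤ θ) (hδ : 0 < δ) :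
    ∃ C : ℝ, 0 < C ∧ ∀ (x y a h r : ℤ) (u₁ u₂ n : ℕ), y ^ 2 ≠ x ^ 3 → a ≠ 0 → h ≠ 0 →
      |a| ≤ H → |h| ≤ H → Smooth S u₁ → Smooth S u₂ → Smooth S n →
      (u₁ : ℝ) ≤ |(x : ℝ)| ^ B → (u₂ : ℝ) ≤ |(x : ℝ)| ^ B →
      h * u₂ * x = a * u₁ + n * r →
      (n : ℝ) * (r : ℝ) ^ 2 ≤ u₂ * |(x : ℝ)| ^ (1 / 2 - δ) → |(r : ℝ)| ≤ |(x : ℝ)| ^ θ →
      (1 / 4 ≤ θ ∨ (n : ℝ) * |(r : ℝ)| ≤ u₂ * |(x : ℝ)| ^ (1 / 4 - δ)) →
      |(x : ℝ)| ^ (3 / 2 - 3 * θ - δ) ≤ C * |(y : ℝ) ^ 2 - (x : ℝ) ^ 3| := by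
  obtain ⟨t, ht0, ht⟩ := bounded S H B θ (δ / 2) hB (by linarith) (by linarith)
  refine ⟨Real.exp (2 * t) + 16, by positivity, ?_⟩
  intro x y a h r u₁ u₂ n hne ha hh haH hhH hu1 hu2 hn hb1 hb2 heq hc1 hc2 hc3
  refine triv hne (int_rpow_le (by linarith)) fun hx4 hxt => ?_
  have hxr : (4 : ℝ) ≤ (x : ℝ) := by exact_mod_cast hx4
  have hxa : |(x : ℝ)| = (x : ℝ) := abs_of_pos (by linarith)
  have hx1 : (1 : ℝ) ≤ x := by linarith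
  have hx0 : (0 : ℝ) < x := by linarith
  rw [hxa] at hb1 hb2 hc1 hc2 hc3 ⊢
  by_contra hcon
  push Not at hcon
  have hu2p : (0 : ℝ) < u₂ := by exact_mod_cast Nat.pos_of_ne_zero hu2.1
  have hh1 : (1 : ℝ) ≤ |(h : ℝ)| := by
    have : 1 ≤ |h| := Int.one_le_abs hh
    exact_mod_cast this
  have he := et_le (δ / 2)
  refine mk (by linarith) ht hne ha hh haH hhH hu1 hu2 hn hb1 hb2 heq hx4 hxt ?_ hc2 ?_ ?_ ?_
  · refine hc1.trans ?_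
    gcongr
    linarith
  · refine hcon.le.trans ?_
    gcongr
    linarith
  · intro hr hR
    calc |(y : ℝ) ^ 2 - (x : ℝ) ^ 3| ≤ (x : ℝ) ^ (3 / 2 - 3 * θ - δ) := hcon.le
      _ ≤ (x : ℝ) ^ (1 - δ / 2 + ((-(2 * et (δ / 2))) + -(2 * et (δ / 2)))) := by
          apply Real.rpow_le_rpow_of_exponent_le hx1
          linarith [he.2]
      _ = (x : ℝ) ^ (1 - δ / 2) * ((x : ℝ) ^ (-(2 * et (δ / 2)))) ^ 2 := by
          rw [Real.rpow_add hx0, Real.rpow_add hx0, sq]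
      _ ≤ (x : ℝ) ^ (1 - δ / 2) * |(n : ℝ) * r / (h * u₂)| ^ 2 := by gcongr
      _ = _ := by rw [sq_abs]
  · rcases hc3 with h3 | h3
    · exact Or.inl h3
    · right
      rw [abs_div, abs_mul, abs_mul, Nat.abs_cast, Nat.abs_cast, div_le_iff₀ (by positivity)]
      calc (n : ℝ) * |(r : ℝ)| ≤ u₂ * (x : ℝ) ^ (1 / 4 - δ) := h3
        _ ≤ u₂ * (x : ℝ) ^ (1 / 4 - δ / 2) := by
            gcongr
            linarith
        _ = (x : ℝ) ^ (1 / 4 - δ / 2) * (1 * u₂) := by ring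
        _ ≤ _ := by gcongr

/-- **the refined inequality** -/
theorem hall_refined (S : Finset ℕ) (H : ℕ) (B δ : ℝ) (hB : 0 ≤ B) (hδ : 0 < δ) :
    ∃ C : ℝ, 0 < C ∧ ∀ (x y a h r : ℤ) (u₁ u₂ n : ℕ), y ^ 2 ≠ x ^ 3 → a ≠ 0 → h ≠ 0 → r ≠ 0 →
      |a| ≤ H → |h| ≤ H → Smooth S u₁ → Smooth S u₂ → Smooth S n →
      (u₁ : ℝ) ≤ |(x : ℝ)| ^ B → (u₂ : ℝ) ≤ |(x : ℝ)| ^ B →
      h * u₂ * x = a * u₁ + n * r →
      (n : ℝ) * (r : ℝ) ^ 2 ≤ u₂ * |(x : ℝ)| ^ (1 / 2 - δ) →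
      (n : ℝ) * |(r : ℝ)| ≤ u₂ * |(x : ℝ)| ^ (1 / 4 - δ) →
      |(x : ℝ)| ^ (-δ) * min (|(x : ℝ)| * ((n : ℝ) * r / u₂) ^ 2) (|(x : ℝ)| ^ (3 / 2 : ℝ) / |(r : ℝ)| ^ 3) ≤
        C * |(y : ℝ) ^ 2 - (x : ℝ) ^ 3| := by
  have hb := fun i : ℕ => bounded S H B (i * (δ / 8)) (δ / 2) hB (by positivity) (by linarith)
  choose t ht0 ht using hb
  obtain ⟨N, hN⟩ : ∃ N : ℕ, 1 / (2 * (δ / 8)) + 1 ≤ N := exists_nat_ge _
  obtain ⟨t', ht'⟩ : ∃ t', t' = (∑ i ∈ range (N + 1), t i) + 4 * Real.log (H + 1) / δ := ⟨_, rfl⟩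
  have hlH : 0 ≤ Real.log ((H : ℝ) + 1) := Real.log_nonneg (by linarith [Nat.cast_nonneg (α := ℝ) H])
  have hs0 : 0 ≤ ∑ i ∈ range (N + 1), t i := Finset.sum_nonneg fun i _ => (ht0 i).le
  refine ⟨Real.exp (2 * t') + 16, by positivity, ?_⟩
  intro x y a h r u₁ u₂ n hne ha hh hr haH hhH hu1 hu2 hn hb1 hb2 heq hc1 hc3
  have hr1 : (1 : ℝ) ≤ |(r : ℝ)| := by
    have : 1 ≤ |r| := Int.one_le_abs hr
    exact_mod_cast this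
  refine triv hne ?_ fun hx4 hxt => ?_
  · by_cases hx0 : x = 0
    · rw [hx0]
      push_cast
      rw [abs_zero, Real.zero_rpow (by linarith), zero_mul]
      positivity
    · have hx1 : (1 : ℝ) ≤ |(x : ℝ)| := by
        have : 1 ≤ |x| := Int.one_le_abs hx0
        exact_mod_cast this
      calc |(x : ℝ)| ^ (-δ) * min (|(x : ℝ)| * ((n : ℝ) * r / u₂) ^ 2) (|(x : ℝ)| ^ (3 / 2 : ℝ) / |(r : ℝ)| ^ 3)
          ≤ 1 * (|(x : ℝ)| ^ (3 / 2 : ℝ) / 1) := by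
            gcongr
            · exact Real.rpow_le_one_of_one_le_of_nonpos hx1 (by linarith)
            · refine (min_le_right _ _).trans ?_
              gcongr
              exact one_le_pow₀ hr1
        _ = |(x : ℝ)| ^ (3 / 2 : ℝ) := by ring
        _ ≤ _ := int_rpow_le (by norm_num)
  have hxr : (4 : ℝ) ≤ (x : ℝ) := by exact_mod_cast hx4
  have hxa : |(x : ℝ)| = (x : ℝ) := abs_of_pos (by linarith)
  have hx1 : (1 : ℝ) ≤ x := by linarith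
  have hx0 : (0 : ℝ) < x := by linarith
  rw [hxa] at hb1 hb2 hc1 hc3 ⊢
  by_contra hcon
  push Not at hcon
  have hd1 : (1 : ℝ) ≤ |(y : ℝ) ^ 2 - (x : ℝ) ^ 3| := by
    have h1 : 1 ≤ |y ^ 2 - x ^ 3| := Int.one_le_abs (sub_ne_zero.2 hne)
    exact_mod_cast h1
  have hu2p : (0 : ℝ) < u₂ := by exact_mod_cast Nat.pos_of_ne_zero hu2.1
  have hh1 : (1 : ℝ) ≤ |(h : ℝ)| := by
    have : 1 ≤ |h| := Int.one_le_abs hh
    exact_mod_cast this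
  have hhH' : |(h : ℝ)| ≤ H + 1 := by
    have : |(h : ℝ)| ≤ H := by exact_mod_cast hhH
    linarith
  -- the two bounds
  have hA : |(y : ℝ) ^ 2 - (x : ℝ) ^ 3| ≤ (x : ℝ) ^ (1 - δ) * ((n : ℝ) * r / u₂) ^ 2 := by
    refine hcon.le.trans ?_
    calc (x : ℝ) ^ (-δ) * min (x * ((n : ℝ) * r / u₂) ^ 2) ((x : ℝ) ^ (3 / 2 : ℝ) / |(r : ℝ)| ^ 3) ≤
        (x : ℝ) ^ (-δ) * (x * ((n : ℝ) * r / u₂) ^ 2) := by
          gcongr
          exact min_le_left _ _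
      _ = ((x : ℝ) ^ (-δ) * (x : ℝ) ^ (1 : ℝ)) * ((n : ℝ) * r / u₂) ^ 2 := by
          rw [Real.rpow_one]; ring
      _ = _ := by
          rw [← Real.rpow_add hx0]
          congr 2
          ring
  have hBd : |(y : ℝ) ^ 2 - (x : ℝ) ^ 3| * |(r : ℝ)| ^ 3 ≤ (x : ℝ) ^ (3 / 2 - δ) := by
    have h1 : |(y : ℝ) ^ 2 - (x : ℝ) ^ 3| ≤ (x : ℝ) ^ (-δ) * ((x : ℝ) ^ (3 / 2 : ℝ) / |(r : ℝ)| ^ 3) :=
      hcon.le.trans (by
        gcongr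
        exact min_le_right _ _)
    calc |(y : ℝ) ^ 2 - (x : ℝ) ^ 3| * |(r : ℝ)| ^ 3 ≤
        ((x : ℝ) ^ (-δ) * ((x : ℝ) ^ (3 / 2 : ℝ) / |(r : ℝ)| ^ 3)) * |(r : ℝ)| ^ 3 := by gcongr
      _ = (x : ℝ) ^ (-δ) * (x : ℝ) ^ (3 / 2 : ℝ) := by field_simp
      _ = _ := by
          rw [← Real.rpow_add hx0]
          congr 1
          ring
  -- the exponent of `r`
  obtain ⟨ρ, hρ⟩ : ∃ ρ, ρ = Real.log |(r : ℝ)| / Real.log x := ⟨_, rfl⟩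
  have hlx : 0 < Real.log (x : ℝ) := Real.log_pos (by linarith)
  have hrρ : |(r : ℝ)| = (x : ℝ) ^ ρ := by
    rw [hρ, Real.rpow_def_of_pos hx0, mul_div_cancel₀ _ hlx.ne', Real.exp_log (by linarith)]
  have hρ0 : 0 ≤ ρ := by rw [hρ]; exact div_nonneg (Real.log_nonneg hr1) hlx.le
  have hρ1 : ρ ≤ 1 / 2 := by
    by_contra hc
    push Not at hc
    have h1 : (x : ℝ) ^ (3 / 2 - δ) < |(y : ℝ) ^ 2 - (x : ℝ) ^ 3| * |(r : ℝ)| ^ 3 := by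
      have h2 : |(r : ℝ)| ^ 3 = (x : ℝ) ^ (ρ * ((3 : ℕ) : ℝ)) := by
        rw [hrρ, ← Real.rpow_natCast, ← Real.rpow_mul hx0.le]
      rw [h2]
      calc (x : ℝ) ^ (3 / 2 - δ) < (x : ℝ) ^ (ρ * ((3 : ℕ) : ℝ)) := by
            apply Real.rpow_lt_rpow_of_exponent_lt (by linarith)
            push_cast
            linarith
        _ = 1 * (x : ℝ) ^ (ρ * ((3 : ℕ) : ℝ)) := (one_mul _).symm
        _ ≤ _ := by gcongr
    linarith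
  obtain ⟨i, hi⟩ : ∃ i : ℕ, i = ⌈ρ / (δ / 8)⌉₊ := ⟨_, rfl⟩
  have hi1 : ρ / (δ / 8) ≤ i := by rw [hi]; exact Nat.le_ceil _
  have hi2 : (i : ℝ) < ρ / (δ / 8) + 1 := by rw [hi]; exact Nat.ceil_lt_add_one (by positivity)
  have hi3 : ρ ≤ i * (δ / 8) := by rwa [div_le_iff₀ (by positivity)] at hi1
  have hi4 : i * (δ / 8) ≤ ρ + δ / 8 := by
    have : (i : ℝ) * (δ / 8) ≤ (ρ / (δ / 8) + 1) * (δ / 8) := by gcongr
    calc (i : ℝ) * (δ / 8) ≤ (ρ / (δ / 8) + 1) * (δ / 8) := this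
      _ = ρ + δ / 8 := by field_simp
  have hiN : i ∈ range (N + 1) := by
    rw [mem_range]
    have h1 : (i : ℝ) < N + 1 := by
      have : ρ / (δ / 8) ≤ 1 / (2 * (δ / 8)) := by
        rw [div_le_div_iff₀ (by positivity) (by positivity)]
        nlinarith
      linarith
    exact_mod_cast h1
  have hti : t i ≤ t' := by
    rw [ht']
    have h1 : t i ≤ ∑ i ∈ range (N + 1), t i := Finset.single_le_sum (f := t) (fun i _ => (ht0 i).le) hiN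
    have h2 : 0 ≤ 4 * Real.log ((H : ℝ) + 1) / δ := by positivity
    linarith
  refine mk (by linarith) (ht i) hne ha hh haH hhH hu1 hu2 hn hb1 hb2 heq hx4
    ((Real.exp_le_exp.2 hti).trans hxt) ?_ ?_ ?_ ?_ ?_
  · refine hc1.trans ?_
    gcongr
    linarith
  · rw [hrρ]
    exact Real.rpow_le_rpow_of_exponent_le hx1 hi3
  · have h1 : |(y : ℝ) ^ 2 - (x : ℝ) ^ 3| ≤ (x : ℝ) ^ (3 / 2 - δ - 3 * ρ) := by
      rw [Real.rpow_sub hx0, le_div_iff₀ (by positivity)]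
      have h2 : (x : ℝ) ^ (3 * ρ) = |(r : ℝ)| ^ 3 := by
        rw [hrρ, ← Real.rpow_natCast, ← Real.rpow_mul hx0.le]
        congr 1
        push_cast
        ring
      rw [h2]
      exact hBd
    refine h1.trans (Real.rpow_le_rpow_of_exponent_le hx1 ?_)
    linarith
  · intro _ _
    have h1 : ((H : ℝ) + 1) ^ 2 ≤ (x : ℝ) ^ (δ / 2) := by
      have h2 : 4 * Real.log ((H : ℝ) + 1) / δ ≤ Real.log x := by
        have h3 : t' ≤ Real.log x := by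
          rw [Real.le_log_iff_exp_le hx0]
          exact hxt
        linarith
      rw [div_le_iff₀ hδ] at h2
      have h3 : (0 : ℝ) < (H : ℝ) + 1 := by positivity
      rw [Real.rpow_def_of_pos hx0, ← Real.log_le_iff_le_exp (by positivity), Real.log_pow]
      push_cast
      linarith
    have h2 : ((n : ℝ) * r / u₂) ^ 2 = (h : ℝ) ^ 2 * ((n : ℝ) * r / (h * u₂)) ^ 2 := by
      have : (h : ℝ) ≠ 0 := by exact_mod_cast hh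
      field_simp
    rw [h2] at hA
    have h3 : (h : ℝ) ^ 2 ≤ ((H : ℝ) + 1) ^ 2 := by
      rw [← sq_abs (h : ℝ)]
      exact pow_le_pow_left₀ (abs_nonneg _) hhH' 2
    calc |(y : ℝ) ^ 2 - (x : ℝ) ^ 3| ≤ (x : ℝ) ^ (1 - δ) * ((h : ℝ) ^ 2 * ((n : ℝ) * r / (h * u₂)) ^ 2) := hA
      _ ≤ (x : ℝ) ^ (1 - δ) * ((x : ℝ) ^ (δ / 2) * ((n : ℝ) * r / (h * u₂)) ^ 2) := by
          gcongr
          exact h3.trans h1
      _ = ((x : ℝ) ^ (1 - δ) * (x : ℝ) ^ (δ / 2)) * ((n : ℝ) * r / (h * u₂)) ^ 2 := by ring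
      _ = _ := by
          rw [← Real.rpow_add hx0]
          congr 2
          ring
  · right
    rw [abs_div, abs_mul, abs_mul, Nat.abs_cast, Nat.abs_cast, div_le_iff₀ (by positivity)]
    calc (n : ℝ) * |(r : ℝ)| ≤ u₂ * (x : ℝ) ^ (1 / 4 - δ) := hc3
      _ ≤ u₂ * (x : ℝ) ^ (1 / 4 - δ / 2) := by
          gcongr
          linarith
      _ = (x : ℝ) ^ (1 / 4 - δ / 2) * (1 * u₂) := by ring
      _ ≤ _ := by gcongr

end Pool.Agent.Zk43.HS
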