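import Mathlib
import Pool.Agent.Zk43.HS.Win

/-!
# Integral points of Mordell curves with abscissa near an `S`-unit: corollaries
-/

set_option autoImplicit false

open Finset Filter Topology

namespace Pool.Agent.Zk43.HS

/-- a bound for `|x| ≥ X₀` gives a bound for all `x` -/
lemma triv2 {X₀ C : ℝ} {x y : ℤ} {Q : ℝ} (hne : y ^ 2 ≠ x ^ 3) (hC : 0 ≤ C)
    (hQ : Q ≤ max 1 |(x : ℝ)| ^ 2)
    (hmain : 1 ≤ |(x : ℝ)| → X₀ ≤ |(x : ℝ)| → Q ≤ C * |(y : ℝ) ^ 2 - (x : ℝ) ^ 3|) :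
    Q ≤ (C + X₀ ^ 2 + 1) * |(y : ℝ) ^ 2 - (x : ℝ) ^ 3| := by
  have hd1 : (1 : ℝ) ≤ |(y : ℝ) ^ 2 - (x : ℝ) ^ 3| := by
    have h1 : 1 ≤ |y ^ 2 - x ^ 3| := Int.one_le_abs (sub_ne_zero.2 hne)
    exact_mod_cast h1
  by_cases h : 1 ≤ |(x : ℝ)| ∧ X₀ ≤ |(x : ℝ)|
  · refine (hmain h.1 h.2).trans ?_
    gcongr
    nlinarith [sq_nonneg X₀]
  · have h1 : max 1 |(x : ℝ)| ^ 2 ≤ X₀ ^ 2 + 1 := by
      rcases lt_or_ge |(x : ℝ)| 1 with h2 | h2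
      · rw [max_eq_left h2.le]
        nlinarith [sq_nonneg X₀]
      · rw [max_eq_right h2]
        have h3 : |(x : ℝ)| < X₀ := by
          by_contra h4
          exact h ⟨h2, not_lt.1 h4⟩
        have : |(x : ℝ)| ^ 2 ≤ X₀ ^ 2 := pow_le_pow_left₀ (abs_nonneg _) h3.le 2
        linarith
    calc Q ≤ (X₀ ^ 2 + 1) * 1 := by linarith
      _ ≤ (C + X₀ ^ 2 + 1) * |(y : ℝ) ^ 2 - (x : ℝ) ^ 3| := by
          gcongr
          linarith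

lemma ev_rpow (M : ℝ) {e : ℝ} (he : 0 < e) : ∃ X₀ : ℝ, ∀ X : ℝ, X₀ ≤ X → M ≤ X ^ e :=
  eventually_atTop.1 ((tendsto_rpow_atTop he).eventually_ge_atTop M)

/-- the size of the `S`-unit -/
lemma unit_le {H : ℕ} {x a h : ℤ} {u : ℕ} {δ : ℝ} (hδ : 0 < δ) (ha : a ≠ 0) (hhH : |h| ≤ H)
    (hx1 : 1 ≤ |(x : ℝ)|) (hx : (H : ℝ) + 1 ≤ |(x : ℝ)|)
    (hr : |((h * x - a * u : ℤ) : ℝ)| ≤ |(x : ℝ)| ^ (1 / 4 - δ)) : (u : ℝ) ≤ |(x : ℝ)| ^ (2 : ℝ) := by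
  have ha1 : (1 : ℝ) ≤ |(a : ℝ)| := by
    have : 1 ≤ |a| := Int.one_le_abs ha
    exact_mod_cast this
  have hh1 : |(h : ℝ)| ≤ H := by exact_mod_cast hhH
  have h1 : |(x : ℝ)| ^ (1 / 4 - δ) ≤ |(x : ℝ)| := by
    calc |(x : ℝ)| ^ (1 / 4 - δ) ≤ |(x : ℝ)| ^ (1 : ℝ) := by
          apply Real.rpow_le_rpow_of_exponent_le hx1
          linarith
      _ = _ := Real.rpow_one _
  have h2 : (u : ℝ) ≤ |(a : ℝ) * u| := by
    rw [abs_mul, Nat.abs_cast]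
    exact le_mul_of_one_le_left (Nat.cast_nonneg _) ha1
  have h3 : |(a : ℝ) * u| ≤ |(h : ℝ) * x| + |((h * x - a * u : ℤ) : ℝ)| := by
    push_cast
    have : (a : ℝ) * u = h * x - (h * x - a * u) := by ring
    calc |(a : ℝ) * u| = |(h : ℝ) * x - (h * x - a * u)| := by rw [← this]
      _ ≤ _ := abs_sub _ _
  have h4 : |(h : ℝ) * x| ≤ H * |(x : ℝ)| := by
    rw [abs_mul]
    gcongr
  have h5 : |(x : ℝ)| ^ (2 : ℝ) = |(x : ℝ)| * |(x : ℝ)| := by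
    rw [show (2 : ℝ) = ((2 : ℕ) : ℝ) by norm_num, Real.rpow_natCast, sq]
  rw [h5]
  calc (u : ℝ) ≤ H * |(x : ℝ)| + |(x : ℝ)| := by linarith
    _ = (H + 1) * |(x : ℝ)| := by ring
    _ ≤ _ := by gcongr

/-- **windows**: the nonexact case -/
theorem win_ne (S : Finset ℕ) (H : ℕ) (δ : ℝ) (hδ : 0 < δ) :
    ∃ C : ℝ, 0 < C ∧ ∀ (x y a h : ℤ) (u : ℕ), y ^ 2 ≠ x ^ 3 → a ≠ 0 → h ≠ 0 → |a| ≤ H → |h| ≤ H →
      Smooth S u → h * x ≠ a * u → |((h * x - a * u : ℤ) : ℝ)| ≤ |(x : ℝ)| ^ (1 / 4 - δ) →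
      |(x : ℝ)| ^ (-δ) * min (|(x : ℝ)| * |((h * x - a * u : ℤ) : ℝ)| ^ 2)
        (|(x : ℝ)| ^ (3 / 2 : ℝ) / |((h * x - a * u : ℤ) : ℝ)| ^ 3) ≤
        C * |(y : ℝ) ^ 2 - (x : ℝ) ^ 3| := by
  obtain ⟨C, hC, h1⟩ := hall_refined S H 2 δ (by norm_num) hδ
  refine ⟨C + ((H : ℝ) + 1) ^ 2 + 1, by positivity, ?_⟩
  intro x y a h u hne ha hh haH hhH hu hr0 hr
  have hr1 : (1 : ℝ) ≤ |((h * x - a * u : ℤ) : ℝ)| := by
    have : 1 ≤ |h * x - a * u| := Int.one_le_abs (sub_ne_zero.2 hr0)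
    exact_mod_cast this
  refine triv2 hne hC.le ?_ fun hx1 hx => ?_
  · by_cases hx0 : x = 0
    · rw [hx0]
      push_cast
      rw [abs_zero, Real.zero_rpow (by linarith), zero_mul]
      positivity
    · have hx1 : (1 : ℝ) ≤ |(x : ℝ)| := by
        have : 1 ≤ |x| := Int.one_le_abs hx0
        exact_mod_cast this
      calc |(x : ℝ)| ^ (-δ) * min (|(x : ℝ)| * |((h * x - a * u : ℤ) : ℝ)| ^ 2)
            (|(x : ℝ)| ^ (3 / 2 : ℝ) / |((h * x - a * u : ℤ) : ℝ)| ^ 3)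
          ≤ 1 * (|(x : ℝ)| ^ (3 / 2 : ℝ) / 1) := by
            gcongr
            · exact Real.rpow_le_one_of_one_le_of_nonpos hx1 (by linarith)
            · refine (min_le_right _ _).trans ?_
              gcongr
              exact one_le_pow₀ hr1
        _ = |(x : ℝ)| ^ (3 / 2 : ℝ) := by ring
        _ ≤ _ := int_rpow_le (by norm_num)
  have hx0 : 0 < |(x : ℝ)| := by linarith
  have h2 := h1 x y a h (h * x - a * u) u 1 1 hne ha hh (sub_ne_zero.2 hr0) haH hhH hu (Smooth.one S) (Smooth.one S)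
    (unit_le hδ ha hhH hx1 hx hr)
    (by
      push_cast
      exact Real.one_le_rpow hx1 (by norm_num))
    (by push_cast; ring)
    (by
      rw [Nat.cast_one, one_mul, one_mul, ← sq_abs]
      calc |((h * x - a * u : ℤ) : ℝ)| ^ 2 ≤ (|(x : ℝ)| ^ (1 / 4 - δ)) ^ 2 :=
            pow_le_pow_left₀ (abs_nonneg _) hr 2
        _ = |(x : ℝ)| ^ ((1 / 4 - δ) * ((2 : ℕ) : ℝ)) := by
            rw [← Real.rpow_natCast, ← Real.rpow_mul hx0.le]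
        _ ≤ _ := by
            apply Real.rpow_le_rpow_of_exponent_le hx1
            push_cast
            linarith)
    (by
      rw [Nat.cast_one, one_mul, one_mul]
      exact hr)
  rw [Nat.cast_one, div_one, one_mul, ← sq_abs] at h2
  exact h2

/-- **the exact case** -/
theorem win_eq (S : Finset ℕ) (H : ℕ) (δ : ℝ) (hδ : 0 < δ) :
    ∃ C : ℝ, 0 < C ∧ ∀ (x y a h : ℤ) (u : ℕ), y ^ 2 ≠ x ^ 3 → a ≠ 0 → h ≠ 0 → |a| ≤ H → |h| ≤ H →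
      Smooth S u → h * x = a * u → |(x : ℝ)| ^ (3 / 2 - δ) ≤ C * |(y : ℝ) ^ 2 - (x : ℝ) ^ 3| := by
  obtain ⟨t, ht0, ht⟩ := bounded S H 2 0 δ (by norm_num) le_rfl hδ
  refine ⟨(Real.exp (2 * t) + 16) + ((H : ℝ) + 1) ^ 2 + 1, by positivity, ?_⟩
  intro x y a h u hne ha hh haH hhH hu hr0
  refine triv2 hne (by positivity) (int_rpow_le (by linarith)) fun hx1 hx => ?_
  refine triv hne (int_rpow_le (by linarith)) fun hx4 hxt => ?_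
  have hxr : (4 : ℝ) ≤ (x : ℝ) := by exact_mod_cast hx4
  have hxa : |(x : ℝ)| = (x : ℝ) := abs_of_pos (by linarith)
  have hu' := unit_le hδ ha hhH hx1 hx (by
    rw [sub_eq_zero.2 hr0]
    push_cast
    rw [abs_zero]
    positivity)
  rw [hxa] at hx1 hx hu' ⊢
  by_contra hcon
  push Not at hcon
  refine mk (r := 0) (u₂ := 1) (n := 1) hδ ht hne ha hh haH hhH hu (Smooth.one S) (Smooth.one S) hu' ?_ ?_ hx4 hxt
    ?_ ?_ ?_ ?_ ?_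
  · push_cast
    exact Real.one_le_rpow hx1 (by norm_num)
  · push_cast
    linarith
  · push_cast
    simp only [ne_eq, OfNat.ofNat_ne_zero, not_false_eq_true, zero_pow, mul_zero, one_mul]
    positivity
  · push_cast
    rw [abs_zero]
    positivity
  · refine hcon.le.trans (le_of_eq ?_)
    congr 1
    ring
  · intro h0
    exact absurd rfl h0
  · right
    push_cast
    simp only [mul_zero, zero_div, abs_zero]
    positivity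

/-- **windows of length `|x| ^ (1 / 4 - δ)`** -/
theorem win_quarter (S : Finset ℕ) (H : ℕ) (δ : ℝ) (hδ : 0 < δ) :
    ∃ C : ℝ, 0 < C ∧ ∀ (x y a h : ℤ) (u : ℕ), y ^ 2 ≠ x ^ 3 → a ≠ 0 → h ≠ 0 → |a| ≤ H → |h| ≤ H →
      Smooth S u → |((h * x - a * u : ℤ) : ℝ)| ≤ |(x : ℝ)| ^ (1 / 4 - δ) →
      |(x : ℝ)| ^ (3 / 4 : ℝ) ≤ C * |(y : ℝ) ^ 2 - (x : ℝ) ^ 3| := by
  obtain ⟨γ, hγ⟩ : ∃ γ, γ = min δ (1 / 4) := ⟨_, rfl⟩
  have hγ0 : 0 < γ := by rw [hγ]; exact lt_min hδ (by norm_num)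
  have hγ1 : γ ≤ 1 / 4 := by rw [hγ]; exact min_le_right _ _
  have hγ2 : γ ≤ δ := by rw [hγ]; exact min_le_left _ _
  obtain ⟨C₁, hC1, h1⟩ := win_ne S H γ hγ0
  obtain ⟨C₂, hC2, h2⟩ := win_eq S H γ hγ0
  refine ⟨(C₁ + C₂) + 1 ^ 2 + 1, by positivity, ?_⟩
  intro x y a h u hne ha hh haH hhH hu hr
  refine triv2 hne (by positivity) (int_rpow_le (by norm_num)) fun hx1 _ => ?_
  have hx0 : 0 < |(x : ℝ)| := by linarith
  by_cases hr0 : h * x = a * u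
  · calc |(x : ℝ)| ^ (3 / 4 : ℝ) ≤ |(x : ℝ)| ^ (3 / 2 - γ) :=
          Real.rpow_le_rpow_of_exponent_le hx1 (by linarith)
      _ ≤ C₂ * |(y : ℝ) ^ 2 - (x : ℝ) ^ 3| := h2 x y a h u hne ha hh haH hhH hu hr0
      _ ≤ _ := by gcongr; linarith
  · have hr' : |((h * x - a * u : ℤ) : ℝ)| ≤ |(x : ℝ)| ^ (1 / 4 - γ) :=
      hr.trans (Real.rpow_le_rpow_of_exponent_le hx1 (by linarith))
    have hr1 : (1 : ℝ) ≤ |((h * x - a * u : ℤ) : ℝ)| := by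
      have : 1 ≤ |h * x - a * u| := Int.one_le_abs (sub_ne_zero.2 hr0)
      exact_mod_cast this
    have h3 := h1 x y a h u hne ha hh haH hhH hu hr0 hr'
    have h4 : |(x : ℝ)| ^ (3 / 4 : ℝ) ≤ |(x : ℝ)| ^ (-γ) * min (|(x : ℝ)| * |((h * x - a * u : ℤ) : ℝ)| ^ 2)
        (|(x : ℝ)| ^ (3 / 2 : ℝ) / |((h * x - a * u : ℤ) : ℝ)| ^ 3) := by
      have h5 : |(x : ℝ)| ^ (3 / 4 + γ) ≤ min (|(x : ℝ)| * |((h * x - a * u : ℤ) : ℝ)| ^ 2)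
        (|(x : ℝ)| ^ (3 / 2 : ℝ) / |((h * x - a * u : ℤ) : ℝ)| ^ 3) := by
        refine le_min ?_ ?_
        · calc |(x : ℝ)| ^ (3 / 4 + γ) ≤ |(x : ℝ)| ^ (1 : ℝ) :=
                Real.rpow_le_rpow_of_exponent_le hx1 (by linarith)
            _ = |(x : ℝ)| * 1 := by rw [Real.rpow_one, mul_one]
            _ ≤ _ := by
                gcongr
                exact one_le_pow₀ hr1
        · rw [le_div_iff₀ (by positivity)]
          calc |(x : ℝ)| ^ (3 / 4 + γ) * |((h * x - a * u : ℤ) : ℝ)| ^ 3 ≤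
              |(x : ℝ)| ^ (3 / 4 + γ) * (|(x : ℝ)| ^ (1 / 4 - γ)) ^ 3 := by gcongr
            _ = |(x : ℝ)| ^ ((3 / 4 + γ) + (1 / 4 - γ) * ((3 : ℕ) : ℝ)) := by
                rw [← Real.rpow_natCast (|(x : ℝ)| ^ (1 / 4 - γ)), ← Real.rpow_mul hx0.le, ← Real.rpow_add hx0]
            _ ≤ _ := by
                apply Real.rpow_le_rpow_of_exponent_le hx1
                push_cast
                linarith
      calc |(x : ℝ)| ^ (3 / 4 : ℝ) = |(x : ℝ)| ^ (-γ) * |(x : ℝ)| ^ (3 / 4 + γ) := by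
            rw [← Real.rpow_add hx0]
            congr 1
            ring
        _ ≤ _ := by gcongr
    calc |(x : ℝ)| ^ (3 / 4 : ℝ) ≤ C₁ * |(y : ℝ) ^ 2 - (x : ℝ) ^ 3| := h4.trans h3
      _ ≤ _ := by gcongr; linarith

/-- **windows of length `|x| ^ (1 / 6)`** -/
theorem win_sixth (S : Finset ℕ) (H : ℕ) (δ : ℝ) (hδ : 0 < δ) :
    ∃ C : ℝ, 0 < C ∧ ∀ (x y a h : ℤ) (u : ℕ), y ^ 2 ≠ x ^ 3 → a ≠ 0 → h ≠ 0 → |a| ≤ H → |h| ≤ H →
      Smooth S u → |((h * x - a * u : ℤ) : ℝ)| ≤ |(x : ℝ)| ^ (1 / 6 : ℝ) →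
      |(x : ℝ)| ^ (1 - δ) ≤ C * |(y : ℝ) ^ 2 - (x : ℝ) ^ 3| := by
  obtain ⟨γ, hγ⟩ : ∃ γ, γ = min δ (1 / 12) := ⟨_, rfl⟩
  have hγ0 : 0 < γ := by rw [hγ]; exact lt_min hδ (by norm_num)
  have hγ1 : γ ≤ 1 / 12 := by rw [hγ]; exact min_le_right _ _
  have hγ2 : γ ≤ δ := by rw [hγ]; exact min_le_left _ _
  obtain ⟨C₁, hC1, h1⟩ := win_ne S H γ hγ0
  obtain ⟨C₂, hC2, h2⟩ := win_eq S H γ hγ0
  refine ⟨(C₁ + C₂) + 1 ^ 2 + 1, by positivity, ?_⟩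
  intro x y a h u hne ha hh haH hhH hu hr
  refine triv2 hne (by positivity) (int_rpow_le (by linarith)) fun hx1 _ => ?_
  have hx0 : 0 < |(x : ℝ)| := by linarith
  have hδγ : |(x : ℝ)| ^ (1 - δ) ≤ |(x : ℝ)| ^ (1 - γ) := Real.rpow_le_rpow_of_exponent_le hx1 (by linarith)
  refine hδγ.trans ?_
  by_cases hr0 : h * x = a * u
  · calc |(x : ℝ)| ^ (1 - γ) ≤ |(x : ℝ)| ^ (3 / 2 - γ) :=
          Real.rpow_le_rpow_of_exponent_le hx1 (by linarith)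
      _ ≤ C₂ * |(y : ℝ) ^ 2 - (x : ℝ) ^ 3| := h2 x y a h u hne ha hh haH hhH hu hr0
      _ ≤ _ := by gcongr; linarith
  · have hr' : |((h * x - a * u : ℤ) : ℝ)| ≤ |(x : ℝ)| ^ (1 / 4 - γ) :=
      hr.trans (Real.rpow_le_rpow_of_exponent_le hx1 (by linarith))
    have hr1 : (1 : ℝ) ≤ |((h * x - a * u : ℤ) : ℝ)| := by
      have : 1 ≤ |h * x - a * u| := Int.one_le_abs (sub_ne_zero.2 hr0)
      exact_mod_cast this
    have h3 := h1 x y a h u hne ha hh haH hhH hu hr0 hr'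
    have h5 : |(x : ℝ)| ^ (1 : ℝ) ≤ min (|(x : ℝ)| * |((h * x - a * u : ℤ) : ℝ)| ^ 2)
        (|(x : ℝ)| ^ (3 / 2 : ℝ) / |((h * x - a * u : ℤ) : ℝ)| ^ 3) := by
      refine le_min ?_ ?_
      · calc |(x : ℝ)| ^ (1 : ℝ) = |(x : ℝ)| * 1 := by rw [Real.rpow_one, mul_one]
          _ ≤ _ := by
              gcongr
              exact one_le_pow₀ hr1
      · rw [le_div_iff₀ (by positivity)]
        calc |(x : ℝ)| ^ (1 : ℝ) * |((h * x - a * u : ℤ) : ℝ)| ^ 3 ≤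
            |(x : ℝ)| ^ (1 : ℝ) * (|(x : ℝ)| ^ (1 / 6 : ℝ)) ^ 3 := by gcongr
          _ = |(x : ℝ)| ^ ((1 : ℝ) + (1 / 6 : ℝ) * ((3 : ℕ) : ℝ)) := by
              rw [← Real.rpow_natCast (|(x : ℝ)| ^ (1 / 6 : ℝ)), ← Real.rpow_mul hx0.le, ← Real.rpow_add hx0]
          _ ≤ _ := by
              apply Real.rpow_le_rpow_of_exponent_le hx1
              push_cast
              linarith
    calc |(x : ℝ)| ^ (1 - γ) = |(x : ℝ)| ^ (-γ) * |(x : ℝ)| ^ (1 : ℝ) := by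
          rw [← Real.rpow_add hx0]
          congr 1
          ring
      _ ≤ |(x : ℝ)| ^ (-γ) * min (|(x : ℝ)| * |((h * x - a * u : ℤ) : ℝ)| ^ 2)
        (|(x : ℝ)| ^ (3 / 2 : ℝ) / |((h * x - a * u : ℤ) : ℝ)| ^ 3) := by gcongr
      _ ≤ C₁ * |(y : ℝ) ^ 2 - (x : ℝ) ^ 3| := h3
      _ ≤ _ := by gcongr; linarith

end Pool.Agent.Zk43.HS
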