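import Mathlib
import Pool.Agent.Zk43.HS.Cor

/-!
# Integral points of Mordell curves with abscissa near a rational `S`-unit
-/

set_option autoImplicit false

open Finset Filter Topology

namespace Pool.Agent.Zk43.HS

/-- **integers at bounded distance from a multiple of a rational `S`-unit** -/
theorem near_unit (S : Finset ℕ) (H : ℕ) (lam δ : ℝ) (hl : 1 / 6 ≤ lam) (hl2 : lam < 1 / 2) (hδ : 0 < δ) :
    ∃ C : ℝ, 0 < C ∧ ∀ (x y a h : ℤ) (u₁ u₂ : ℕ), y ^ 2 ≠ x ^ 3 → a ≠ 0 → h ≠ 0 → |a| ≤ H → |h| ≤ H →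
      Smooth S u₁ → Smooth S u₂ → (u₂ : ℝ) ≤ H * |(x : ℝ)| ^ lam →
      |((h * u₂ * x - a * u₁ : ℤ) : ℝ)| ≤ H * u₂ →
      |(x : ℝ)| ^ (3 / 2 - 3 * lam - δ) ≤ C * |(y : ℝ) ^ 2 - (x : ℝ) ^ 3| := by
  obtain ⟨δ₀, hδ₀⟩ : ∃ δ₀, δ₀ = min (δ / 2) (min (1 / 8) ((1 / 2 - lam) / 2)) := ⟨_, rfl⟩
  have g0 : 0 < δ₀ := by
    rw [hδ₀]
    exact lt_min (by linarith) (lt_min (by norm_num) (by linarith))
  have g1 : δ₀ ≤ δ / 2 := by rw [hδ₀]; exact min_le_left _ _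
  have g2 : δ₀ ≤ 1 / 8 := by rw [hδ₀]; exact (min_le_right _ _).trans (min_le_left _ _)
  have g3 : δ₀ ≤ (1 / 2 - lam) / 2 := by rw [hδ₀]; exact (min_le_right _ _).trans (min_le_right _ _)
  obtain ⟨C, hC, h1⟩ := hall_windows S H 3 (lam + δ / 6) δ₀ (by norm_num) (by linarith) g0
  obtain ⟨X₁, hX₁⟩ := ev_rpow ((H : ℝ) ^ 2) (by linarith : 0 < δ / 6)
  obtain ⟨X₂, hX₂⟩ := ev_rpow ((H : ℝ) ^ 3) (by linarith : 0 < (1 / 2 - lam) / 2)
  obtain ⟨X₃, hX₃⟩ := ev_rpow (H : ℝ) (by norm_num : (0 : ℝ) < 1 / 8)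
  obtain ⟨X₄, hX₄⟩ := ev_rpow (2 * (H : ℝ) ^ 2) (by norm_num : (0 : ℝ) < 1)
  obtain ⟨X₀, hX₀⟩ : ∃ X₀, X₀ = max (max X₁ X₂) (max X₃ X₄) := ⟨_, rfl⟩
  refine ⟨C + X₀ ^ 2 + 1, by positivity, ?_⟩
  intro x y a h u₁ u₂ hne ha hh haH hhH hu1 hu2 hu2l hr
  refine triv2 hne hC.le (int_rpow_le (by linarith)) fun hx1 hx => ?_
  have hx0 : 0 < |(x : ℝ)| := by linarith
  have e1 := hX₁ |(x : ℝ)| (by
    refine le_trans ?_ hx
    rw [hX₀]
    exact (le_max_left _ _).trans (le_max_left _ _))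
  have e2 := hX₂ |(x : ℝ)| (by
    refine le_trans ?_ hx
    rw [hX₀]
    exact (le_max_right _ _).trans (le_max_left _ _))
  have e3 := hX₃ |(x : ℝ)| (by
    refine le_trans ?_ hx
    rw [hX₀]
    exact (le_max_left _ _).trans (le_max_right _ _))
  have e4 := hX₄ |(x : ℝ)| (by
    refine le_trans ?_ hx
    rw [hX₀]
    exact (le_max_right _ _).trans (le_max_right _ _))
  rw [Real.rpow_one] at e4
  have hH0 : (0 : ℝ) ≤ H := Nat.cast_nonneg _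
  have ha1 : (1 : ℝ) ≤ |(a : ℝ)| := by
    have : 1 ≤ |a| := Int.one_le_abs ha
    exact_mod_cast this
  have haH' : |(a : ℝ)| ≤ H := by exact_mod_cast haH
  have hhH' : |(h : ℝ)| ≤ H := by exact_mod_cast hhH
  have hH1 : (1 : ℝ) ≤ H := ha1.trans haH'
  have hu2p : (1 : ℝ) ≤ u₂ := by exact_mod_cast Nat.pos_of_ne_zero hu2.1
  have hlam : |(x : ℝ)| ^ lam ≤ |(x : ℝ)| := by
    calc |(x : ℝ)| ^ lam ≤ |(x : ℝ)| ^ (1 : ℝ) := Real.rpow_le_rpow_of_exponent_le hx1 (by linarith)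
      _ = _ := Real.rpow_one _
  have hx3 : |(x : ℝ)| ^ (3 : ℝ) = |(x : ℝ)| * |(x : ℝ)| * |(x : ℝ)| := by
    rw [show (3 : ℝ) = ((3 : ℕ) : ℝ) by norm_num, Real.rpow_natCast]
    ring
  have hu2x : (u₂ : ℝ) ≤ H * |(x : ℝ)| := hu2l.trans (by gcongr)
  have hr2 : |((h * u₂ * x - a * u₁ : ℤ) : ℝ)| ≤ H * (H * |(x : ℝ)| ^ lam) :=
    hr.trans (by gcongr)
  have h2 := h1 x y a h (h * u₂ * x - a * u₁) u₁ u₂ 1 hne ha hh haH hhH hu1 hu2 (Smooth.one S)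
    (by
      have h3 : (u₁ : ℝ) ≤ |(a : ℝ) * u₁| := by
        rw [abs_mul, Nat.abs_cast]
        exact le_mul_of_one_le_left (Nat.cast_nonneg _) ha1
      have h4 : |(a : ℝ) * u₁| ≤ |(h : ℝ) * u₂ * x| + |((h * u₂ * x - a * u₁ : ℤ) : ℝ)| := by
        push_cast
        have : (a : ℝ) * u₁ = h * u₂ * x - (h * u₂ * x - a * u₁) := by ring
        calc |(a : ℝ) * u₁| = |(h : ℝ) * u₂ * x - (h * u₂ * x - a * u₁)| := by rw [← this]
          _ ≤ _ := abs_sub _ _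
      have h5 : |(h : ℝ) * u₂ * x| ≤ H * (H * |(x : ℝ)|) * |(x : ℝ)| := by
        rw [abs_mul, abs_mul, Nat.abs_cast]
        gcongr
      have h6 : H * (u₂ : ℝ) ≤ H * (H * |(x : ℝ)|) * |(x : ℝ)| := by
        calc H * (u₂ : ℝ) ≤ H * (H * |(x : ℝ)|) := by gcongr
          _ = H * (H * |(x : ℝ)|) * 1 := (mul_one _).symm
          _ ≤ _ := by gcongr
      rw [hx3]
      calc (u₁ : ℝ) ≤ H * (H * |(x : ℝ)|) * |(x : ℝ)| + H * (H * |(x : ℝ)|) * |(x : ℝ)| := by linarith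
        _ = (2 * (H : ℝ) ^ 2) * (|(x : ℝ)| * |(x : ℝ)|) := by ring
        _ ≤ |(x : ℝ)| * (|(x : ℝ)| * |(x : ℝ)|) := by gcongr
        _ = _ := by ring)
    (by
      rw [hx3]
      have h7 : (H : ℝ) ≤ |(x : ℝ)| := by nlinarith
      calc (u₂ : ℝ) ≤ H * |(x : ℝ)| := hu2x
        _ ≤ |(x : ℝ)| * |(x : ℝ)| := by gcongr
        _ = |(x : ℝ)| * |(x : ℝ)| * 1 := (mul_one _).symm
        _ ≤ _ := by gcongr)
    (by push_cast; ring)
    (by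
      rw [Nat.cast_one, one_mul, ← sq_abs]
      calc |((h * u₂ * x - a * u₁ : ℤ) : ℝ)| ^ 2 ≤ (H * (u₂ : ℝ)) ^ 2 :=
            pow_le_pow_left₀ (abs_nonneg _) hr 2
        _ = u₂ * ((H : ℝ) ^ 2 * u₂) := by ring
        _ ≤ u₂ * ((H : ℝ) ^ 2 * (H * |(x : ℝ)| ^ lam)) := by gcongr
        _ = u₂ * ((H : ℝ) ^ 3 * |(x : ℝ)| ^ lam) := by ring
        _ ≤ u₂ * (|(x : ℝ)| ^ ((1 / 2 - lam) / 2) * |(x : ℝ)| ^ lam) := by gcongr
        _ = u₂ * |(x : ℝ)| ^ ((1 / 2 - lam) / 2 + lam) := by rw [← Real.rpow_add hx0]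
        _ ≤ _ := by
            gcongr
            linarith)
    (by
      calc |((h * u₂ * x - a * u₁ : ℤ) : ℝ)| ≤ H * (H * |(x : ℝ)| ^ lam) := hr2
        _ = (H : ℝ) ^ 2 * |(x : ℝ)| ^ lam := by ring
        _ ≤ |(x : ℝ)| ^ (δ / 6) * |(x : ℝ)| ^ lam := by gcongr
        _ = _ := by
            rw [← Real.rpow_add hx0]
            congr 1
            ring)
    (by
      right
      rw [Nat.cast_one, one_mul]
      calc |((h * u₂ * x - a * u₁ : ℤ) : ℝ)| ≤ H * u₂ := hr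
        _ = u₂ * H := mul_comm _ _
        _ ≤ u₂ * |(x : ℝ)| ^ (1 / 4 - δ₀) := by
            gcongr
            exact e3.trans (Real.rpow_le_rpow_of_exponent_le hx1 (by linarith)))
  refine le_trans ?_ h2
  apply Real.rpow_le_rpow_of_exponent_le hx1
  linarith

/-- **integers at bounded distance from `(a / h) (p / q) ^ m`** -/
theorem near_pow (p q H : ℕ) (hp : 0 < p) (hq : 0 < q) (lam δ : ℝ) (hl : 1 / 6 ≤ lam) (hl2 : lam < 1 / 2)
    (hδ : 0 < δ) (hpq : (q : ℝ) ≤ ((p : ℝ) / q) ^ lam) :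
    ∃ C : ℝ, 0 < C ∧ ∀ (m : ℕ) (x y a h : ℤ), y ^ 2 ≠ x ^ 3 → a ≠ 0 → h ≠ 0 → |a| ≤ H → |h| ≤ H →
      |((h * q ^ m * x - a * p ^ m : ℤ) : ℝ)| ≤ H * (q : ℝ) ^ m →
      |(x : ℝ)| ^ (3 / 2 - 3 * lam - δ) ≤ C * |(y : ℝ) ^ 2 - (x : ℝ) ^ 3| := by
  obtain ⟨C, hC, h1⟩ := near_unit (p.primeFactors ∪ q.primeFactors) (2 * H) lam δ hl hl2 hδ
  refine ⟨C + 1 ^ 2 + 1, by positivity, ?_⟩
  intro m x y a h hne ha hh haH hhH hr
  refine triv2 hne hC.le (int_rpow_le (by linarith)) fun hx1 _ => ?_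
  have hx0 : 0 < |(x : ℝ)| := by linarith
  have hH0 : (0 : ℝ) ≤ H := Nat.cast_nonneg _
  have ha1 : (1 : ℝ) ≤ |(a : ℝ)| := by
    have : 1 ≤ |a| := Int.one_le_abs ha
    exact_mod_cast this
  have haH' : |(a : ℝ)| ≤ H := by exact_mod_cast haH
  have hhH' : |(h : ℝ)| ≤ H := by exact_mod_cast hhH
  have hH1 : (1 : ℝ) ≤ H := ha1.trans haH'
  have hqr : (0 : ℝ) < q := by exact_mod_cast hq
  have hpr : (0 : ℝ) < p := by exact_mod_cast hp
  have hS : ∀ b : ℕ, 0 < b → (b = p ∨ b = q) → Smooth (p.primeFactors ∪ q.primeFactors) (b ^ m) := by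
    intro b hb hb'
    refine Smooth.pow ⟨hb.ne', ?_⟩ m
    rcases hb' with rfl | rfl
    · exact subset_union_left
    · exact subset_union_right
  -- the size of `(p / q) ^ m`
  have h2 : ((p : ℝ) / q) ^ m ≤ 2 * H * |(x : ℝ)| := by
    have h3 : |(a : ℝ) * p ^ m| ≤ |(h : ℝ) * q ^ m * x| + |((h * q ^ m * x - a * p ^ m : ℤ) : ℝ)| := by
      push_cast
      have : (a : ℝ) * p ^ m = h * q ^ m * x - (h * q ^ m * x - a * p ^ m) := by ring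
      calc |(a : ℝ) * p ^ m| = |(h : ℝ) * q ^ m * x - (h * q ^ m * x - a * p ^ m)| := by rw [← this]
        _ ≤ _ := abs_sub _ _
    have h4 : (p : ℝ) ^ m ≤ |(a : ℝ) * p ^ m| := by
      rw [abs_mul, abs_of_pos (pow_pos hpr m)]
      exact le_mul_of_one_le_left (pow_pos hpr m).le ha1
    have h5 : |(h : ℝ) * q ^ m * x| ≤ H * q ^ m * |(x : ℝ)| := by
      rw [abs_mul, abs_mul, abs_of_pos (pow_pos hqr m)]
      gcongr
    have h6 : H * (q : ℝ) ^ m ≤ H * q ^ m * |(x : ℝ)| := le_mul_of_one_le_right (by positivity) hx1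
    rw [div_pow, div_le_iff₀ (pow_pos hqr m)]
    linarith
  have h3 : (q : ℝ) ^ m ≤ 2 * H * |(x : ℝ)| ^ lam := by
    calc (q : ℝ) ^ m ≤ (((p : ℝ) / q) ^ lam) ^ m := pow_le_pow_left₀ hqr.le hpq m
      _ = (((p : ℝ) / q) ^ m) ^ lam := by
          rw [← Real.rpow_natCast, ← Real.rpow_natCast, ← Real.rpow_mul (by positivity),
            ← Real.rpow_mul (by positivity), mul_comm]
      _ ≤ (2 * H * |(x : ℝ)|) ^ lam := by
          apply Real.rpow_le_rpow (by positivity) h2 (by linarith)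
      _ = (2 * H) ^ lam * |(x : ℝ)| ^ lam := by rw [Real.mul_rpow (by positivity) (by positivity)]
      _ ≤ (2 * H) ^ (1 : ℝ) * |(x : ℝ)| ^ lam := by
          gcongr
          · linarith
          · linarith
      _ = _ := by rw [Real.rpow_one]
  refine h1 x y a h (p ^ m) (q ^ m) hne ha hh (haH.trans (by push_cast; omega)) (hhH.trans (by push_cast; omega))
    (hS p hp (Or.inl rfl)) (hS q hq (Or.inr rfl)) ?_ ?_
  · push_cast
    exact h3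
  · push_cast at hr ⊢
    refine hr.trans ?_
    have : (0 : ℝ) ≤ H * (q : ℝ) ^ m := by positivity
    linarith

/-- **`p > q ^ 4`** -/
theorem near_pow4 (p q H : ℕ) (hq : 0 < q) (hpq : q ^ 4 < p) :
    ∃ C : ℝ, 0 < C ∧ ∀ (m : ℕ) (x y a h : ℤ), y ^ 2 ≠ x ^ 3 → a ≠ 0 → h ≠ 0 → |a| ≤ H → |h| ≤ H →
      |((h * q ^ m * x - a * p ^ m : ℤ) : ℝ)| ≤ H * (q : ℝ) ^ m →
      |(x : ℝ)| ^ (1 / 2 : ℝ) ≤ C * |(y : ℝ) ^ 2 - (x : ℝ) ^ 3| := by
  have hp : 0 < p := by omega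
  have hq1 : (1 : ℝ) ≤ q := by exact_mod_cast hq
  have hqr : (0 : ℝ) < q := by linarith
  have h1 : (q : ℝ) ^ 4 < p := by exact_mod_cast hpq
  have h2 : (q : ℝ) ^ 3 < (p : ℝ) / q := by
    rw [lt_div_iff₀ hqr]
    linarith [show (q : ℝ) ^ 3 * q = (q : ℝ) ^ 4 by ring]
  have h3 : (1 : ℝ) < (p : ℝ) / q := (one_le_pow₀ hq1).trans_lt h2
  have h4 : 0 < Real.log ((p : ℝ) / q) := Real.log_pos h3
  have h5 : 3 * Real.log q < Real.log ((p : ℝ) / q) := by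
    have := Real.log_lt_log (by positivity) h2
    rw [Real.log_pow] at this
    push_cast at this
    exact this
  obtain ⟨lam, hlam⟩ : ∃ lam, lam = max (1 / 6) (Real.log q / Real.log ((p : ℝ) / q)) := ⟨_, rfl⟩
  have hl1 : 1 / 6 ≤ lam := by rw [hlam]; exact le_max_left _ _
  have hl2 : lam < 1 / 3 := by
    rw [hlam]
    refine max_lt (by norm_num) ?_
    rw [div_lt_iff₀ h4]
    linarith
  obtain ⟨C, hC, h⟩ := near_pow p q H hp hq lam (1 - 3 * lam) hl1 (by linarith) (by linarith) (by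
    rw [← Real.log_le_log_iff hqr (by positivity), Real.log_rpow (by linarith)]
    have : Real.log q / Real.log ((p : ℝ) / q) ≤ lam := by rw [hlam]; exact le_max_right _ _
    rwa [div_le_iff₀ h4] at this)
  refine ⟨C, hC, fun m x y a h' hne ha hh haH hhH hr => ?_⟩
  have h6 := h m x y a h' hne ha hh haH hhH hr
  have e : 3 / 2 - 3 * lam - (1 - 3 * lam) = 1 / 2 := by ring
  rw [e] at h6
  exact h6

end Pool.Agent.Zk43.HS
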